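import Pool.Agent.Helper96.SE.Defs

set_option autoImplicit false

/-! Branch-and-cut proofs in which only global connectedness is not free: the definitions of the
final statement. -/

namespace Pool.Agent.Helper96.SE

open Pool.Agent.Helper31.BC (dst tourLen Placement Pair Ineq Refutes)

/-- The 2-factors (edge sets in which every city has degree 2) of length at most `B`, as vectors
with coordinates `0`, `1`, which satisfy the subtour elimination inequalities of all sets of at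
most `m` cities. -/
structure LongTwoFactor {n : ℕ} (P : Fin n → ℤ × ℤ) (B m : ℝ) (x : Pair n → ℤ) : Prop where
  bin : ∀ e, x e = 0 ∨ x e = 1
  deg : ∀ v : Fin n, ∑ e : Pair n, (if e.1.1 = v ∨ e.1.2 = v then x e else 0) = 2
  len : ∑ e : Pair n, dst (P e.1.1) (P e.1.2) * x e ≤ B
  cut : ∀ S : Finset (Fin n), S.Nonempty → S ≠ Finset.univ → (S.card : ℝ) ≤ m →
    (subtour S).Holds x

/-- The final theorem. -/
def specFinal2 : Prop := ∃ k : ℕ, ∀ δ : ℝ, 0 < δ → δ < 1 / 14 → ∃ n₀ : ℕ, ∀ n : ℕ, n₀ ≤ n →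
  ∃ (P : Fin n → ℤ × ℤ) (B : ℕ), 0 < B ∧ Placement (n ^ k) P ∧
    (∀ σ, (1 + 1 / (n : ℝ) ^ k) * B ≤ tourLen P σ) ∧
    (∃ t, Refutes (LongTwoFactor P B ((n : ℝ) ^ (1 - 7 * δ))) (Subtours n) t) ∧
    ∀ t, Refutes (LongTwoFactor P B ((n : ℝ) ^ (1 - 7 * δ))) (Subtours n) t →
      Real.exp ((n : ℝ) ^ δ) ≤ t

end Pool.Agent.Helper96.SE
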