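import Pool.Agent.Helper96.SE.Stmts
import Pool.Agent.Helper96.SE.Defs2

set_option autoImplicit false

/-! # Statements of the modules (se2_mods) -/

namespace Pool.Agent.Helper96.SE

open Pool.Agent.Helper31.BC (dst tourLen Placement Pair Ineq Refutes PCl chs chf xv inn sel col vr)
open Pool.Agent.Helper38.MR (Edge Graph clq mpt Gate Simple out trv)
open Pool.Agent.Helper52.Grid
open Pool.Agent.Helper68.LP (pert dbl ucost scale Costs padded sc near)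

/-! ## Marked edges -/

/-- the marked edges: the edge from (1, 3) to (2, 3) and two edges in each tile -/
def marks (s : List Sub) (M : ℕ) (T : ℕ → Bool) : Finset (Pt × Pt) :=
  insert ((1, 3), (2, 3)) (((Finset.range (2 * M)).filter fun i => T i = true).biUnion fun i =>
    {((8 + 4 * s.length, 12 + 6 * i), (8 + 4 * s.length, 13 + 6 * i)),
      ((14 + 4 * s.length, 13 + 6 * i), (15 + 4 * s.length, 13 + 6 * i))})

/-- (MRK) there are at most `4 * M + 1` marked edges, they are always used, and no two of them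
have a common end -/
def ST_MRK : Prop := ∀ (s : List Sub) (M : ℕ) (T : ℕ → Bool), VT M T →
  (marks s M T).card ≤ 4 * M + 1 ∧
  (∀ m ∈ marks s M T, Vert (hN s M T) (vN s M T) m.1 ∧ Vert (hN s M T) (vN s M T) m.2 ∧
    ((m.2 = (m.1.1 + 1, m.1.2) ∧ ∀ a ch, hNU s M T a ch m.1.1 m.1.2 = true) ∨
      (m.2 = (m.1.1, m.1.2 + 1) ∧ ∀ a ch, vNU s M T a ch m.1.1 m.1.2 = true))) ∧
  ∀ m ∈ marks s M T, ∀ m' ∈ marks s M T,
    (m.1 = m'.1 ∨ m.1 = m'.2 ∨ m.2 = m'.1 ∨ m.2 = m'.2) → m = m'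

/-- (CN3) all vertices in the additional columns and at the right end are joined to (1, 3) or to a
marked edge of a tile -/
def ST_CN3 : Prop := ∀ (s : List Sub) (M : ℕ) (T a ch : ℕ → Bool), VT M T →
  ∀ S : Pt → Prop, Cls (hNU s M T a ch) (vNU s M T a ch) S →
    (∀ i, i < 2 * M + 1 → (S (5 + 4 * s.length, 5 + 6 * i) ↔ S (1, 3)) ∧
      (S (5 + 4 * s.length, 7 + 6 * i) ↔ S (1, 3)) ∧
      (S (5 + 4 * s.length, 9 + 6 * i) ↔ S (1, 3)) ∧
      (S (23 + 4 * s.length, 8 + 6 * i) ↔ S (1, 3))) →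
    ∀ b, Vert (hN s M T) (vN s M T) b → 5 + 4 * s.length ≤ b.1 → 4 ≤ b.2 →
      (S b ↔ S (1, 3)) ∨ ∃ i, T i = true ∧
        ((S b ↔ S (8 + 4 * s.length, 12 + 6 * i)) ∨ (S b ↔ S (14 + 4 * s.length, 13 + 6 * i)))

/-- (CNN3) all vertices are joined to (1, 3) or to a marked edge of a tile (from CN1, CN3) -/
def ST_CNN3 : Prop := ∀ (s : List Sub) (M : ℕ) (T a ch : ℕ → Bool),
  (∀ k i d, sg s k = some (i, d) → i < 2 * M + 1) → (0 < s.length → sg s 0 = none) → VT M T →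
  Choice s a ch → ∀ S : Pt → Prop, Cls (hNU s M T a ch) (vNU s M T a ch) S →
    ∀ b, Vert (hN s M T) (vN s M T) b → (S b ↔ S (1, 3)) ∨ ∃ i, T i = true ∧
      ((S b ↔ S (8 + 4 * s.length, 12 + 6 * i)) ∨ (S b ↔ S (14 + 4 * s.length, 13 + 6 * i)))

/-- (SPL2) the split, with a set `E` of edges which are always used such that each set which
violates its inequality contains an edge of `E` -/
def ST_SPL2 : Prop := ∀ (k q l N W n : ℕ) (p : Fin n → Pt), 0 < q → 0 < l → 2 ≤ k → 2 ≤ n →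
  Box (hN (subs (ccF k q l)) (ccM k q l) (tl (k * q) l))
    (vN (subs (ccF k q l)) (ccM k q l) (tl (k * q) l)) N →
  Function.Injective p →
  (∀ a, Vert (hN (subs (ccF k q l)) (ccM k q l) (tl (k * q) l))
    (vN (subs (ccF k q l)) (ccM k q l) (tl (k * q) l)) a ↔ ∃ i, p i = a) →
  W + ∑ i, Pool.Agent.Helper68.LP.fdeg (hN (subs (ccF k q l)) (ccM k q l) (tl (k * q) l))
    (vN (subs (ccF k q l)) (ccM k q l) (tl (k * q) l)) (p i) = 2 * n →
  ∃ (f : (Fin k → Fin q) → Pair n → ℤ) (g : (Fin (k * q) → Fin l) → Pair n → ℤ)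
    (E : Finset (Pair n)),
    Spl (TwoFactor (fun i => pert (dbl (hN (subs (ccF k q l)) (ccM k q l) (tl (k * q) l)))
        (dbl (vN (subs (ccF k q l)) (ccM k q l) (tl (k * q) l))) (scale n (2 * N) 4 W : ℕ) (p i))
      ((n * scale n (2 * N) 4 W + (2 * W + 1) : ℕ) : ℝ))
      (fun σ => clq (trv σ)) (fun χ => mpt χ) f g ∧
    E.Nonempty ∧ E.card ≤ 4 * ccM k q l + 1 ∧
    (∀ e ∈ E, ∀ e' ∈ E, e.1.1 = e'.1.1 → e = e') ∧
    (∀ e ∈ E, ∀ σ χ, f σ e + g χ e = 1) ∧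
    ∀ σ χ (S : Finset (Fin n)), S.Nonempty → S ≠ Finset.univ →
      ¬ (subtour S).Holds (fun e => f σ e + g χ e) → ∃ e ∈ E, e.1.1 ∈ S

/-! ## Inserting cities -/

/-- `T` cities inserted next to the cities `w 0, ..., w (J - 1)`, in turn, at scale `L` -/
def spread {n : ℕ} (L T J : ℕ) (w : ℕ → Fin n) (P : Fin n → ℤ × ℤ) : Fin (n + T) → ℤ × ℤ :=
  Fin.append (fun i => sc L (P i)) fun q : Fin T => near (sc L (P (w ((q : ℕ) % J)))) ((q : ℕ) / J)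

/-- (PD2) as PD1, with more information -/
def ST_PD2 : Prop := ∀ (n m : ℕ) (A B : Type) (P : Fin n → ℤ × ℤ) (b : ℝ) (gA : A → Graph m)
  (gB : B → Graph m) (f : A → Pair n → ℤ) (g : B → Pair n → ℤ) (e₀ : Pair n) (w : Fin n)
  (z : ℤ × ℤ), 3 ≤ n → (w = e₀.1.1 ∨ w = e₀.1.2) → Spl (TwoFactor P b) gA gB f g →
  (∀ α β, f α e₀ + g β e₀ = 1) →
  ∃ (f' : A → Pair (n + 1) → ℤ) (g' : B → Pair (n + 1) → ℤ) (e₁ : Pair (n + 1)),
    e₁.1.1 = w.castSucc ∧ e₁.1.2 = Fin.last n ∧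
    Spl (TwoFactor (Fin.snoc P z : Fin (n + 1) → ℤ × ℤ)
      (b + (dst (P e₀.1.1) z + dst z (P e₀.1.2) - dst (P e₀.1.1) (P e₀.1.2)))) gA gB f' g' ∧
    (∀ α β, f' α e₁ + g' β e₁ = 1) ∧
    (∀ (e : Pair n) (e' : Pair (n + 1)), e ≠ e₀ → e'.1.1 = e.1.1.castSucc →
      e'.1.2 = e.1.2.castSucc → ∀ α β, f' α e' + g' β e' = f α e + g β e) ∧
    ∀ α β (S : Finset (Fin (n + 1))), S.Nonempty → S ≠ Finset.univ →
      ¬ (subtour S).Holds (fun e => f' α e + g' β e) →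
      (Finset.univ.filter fun i : Fin n => i.castSucc ∈ S).Nonempty ∧
      (Finset.univ.filter fun i : Fin n => i.castSucc ∈ S) ≠ Finset.univ ∧
      ¬ (subtour (Finset.univ.filter fun i : Fin n => i.castSucc ∈ S)).Holds
        (fun e => f α e + g β e) ∧
      (Fin.last n ∈ S ↔ e₀.1.1.castSucc ∈ S) ∧ (Fin.last n ∈ S ↔ e₀.1.2.castSucc ∈ S)

/-- (MPD) inserting `T` cities into `J` edges which are always used (from PD2) -/
def ST_MPD : Prop := ∀ (n m T J L : ℕ) (A B : Type) (P : Fin n → ℤ × ℤ) (b : ℝ)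
  (gA : A → Graph m) (gB : B → Graph m) (f : A → Pair n → ℤ) (g : B → Pair n → ℤ)
  (E : ℕ → Pair n), 3 ≤ n → 0 < J →
  (∀ i j, i < J → j < J → (E i).1.1 = (E j).1.1 → i = j) →
  Spl (TwoFactor P b) gA gB f g → (∀ j, j < J → ∀ α β, f α (E j) + g β (E j) = 1) →
  (∀ α β (S : Finset (Fin n)), S.Nonempty → S ≠ Finset.univ →
    ¬ (subtour S).Holds (fun e => f α e + g β e) → ∃ j, j < J ∧ (E j).1.1 ∈ S) →
  ∃ (f' : A → Pair (n + T) → ℤ) (g' : B → Pair (n + T) → ℤ),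
    Spl (LongTwoFactor (spread L T J (fun j => (E j).1.1) P) (L * b + 2 * T) ((T / J : ℕ) : ℝ))
      gA gB f' g'

/-- (RMV) removing the inserted cities from a tour -/
def ST_RMV : Prop := ∀ (n L T J : ℕ) (w : ℕ → Fin n) (P : Fin n → ℤ × ℤ)
  (σ' : Equiv.Perm (Fin (n + T))),
  ∃ σ : Equiv.Perm (Fin n), (L : ℝ) * tourLen P σ ≤ tourLen (spread L T J w P) σ'

/-- (INJ) the cities are distinct -/
def ST_INJ : Prop := ∀ (n L T J : ℕ) (w : ℕ → Fin n) (P : Fin n → ℤ × ℤ),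
  Function.Injective P → 0 < J → T < L → (∀ i j, i < J → j < J → w i = w j → i = j) →
  Function.Injective (spread L T J w P)

/-- (NUM2) the numerical part -/
def ST_NUM2 : Prop := ∀ δ : ℝ, 0 < δ → δ < 1 / 14 → ∃ n₀ : ℕ, ∀ n : ℕ, n₀ ≤ n →
  ∃ s : ℕ, 20 ≤ s ∧ 2 * 10 ^ 12 * s ^ 14 ≤ n ∧
    (∀ J T : ℕ, 0 < J → J ≤ 6000 * s ^ 6 → n ≤ 2 * T →
      (n : ℝ) ^ (1 - 7 * δ) ≤ ((T / J : ℕ) : ℝ)) ∧
    ∀ t : ℕ, 2 ^ s ≤ 12 * t * ((4 * s ^ 2 + 1) * (8 * s) + 1) ^ Nat.log 2 t + 2 →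
      Real.exp ((n : ℝ) ^ δ) ≤ t

end Pool.Agent.Helper96.SE
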