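import Pool.Agent.Helper96.SE.Stmts
import Pool.Agent.Helper31.BC.Final

set_option autoImplicit false

/-! Assembly of the lower bound. -/

namespace Pool.Agent.Helper96.SE

open Pool.Agent.Helper31.BC (dst tourLen Placement Pair Ineq Refutes finL finL_nodup mem_finL
  fin_sum_le fin_pert fin_size)
open Pool.Agent.Helper38.MR (Edge Graph clq mpt Gate Simple out trv)
open Pool.Agent.Helper52.Grid
open Pool.Agent.Helper68.LP (pert dbl ucost scale Costs vert_box padded sc near)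

theorem final_fdeg (hFDG : ST_FDG) {S : List Sub} {M N : ℕ} {T : ℕ → Bool}
    (hB : Box (hN S M T) (vN S M T) N) (hrow : ∀ k i d, sg S k = some (i, d) → i < 2 * M + 1)
    (h0 : 0 < S.length → sg S 0 = none) (hT : VT M T) {a : Pt}
    (ha : Vert (hN S M T) (vN S M T) a) :
    Pool.Agent.Helper68.LP.fdeg (hN S M T) (vN S M T) a ≤ 2 := by
  have h2 := hFDG S M T hrow h0 hT
  obtain ⟨x, y⟩ := a
  cases x with
  | zero =>
    exfalso
    unfold Vert at ha
    simp only [Nat.zero_sub] at ha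
    rw [hB.hx, hB.vx, hB.vx] at ha
    omega
  | succ x =>
    cases y with
    | zero =>
      exfalso
      unfold Vert at ha
      simp only [Nat.zero_sub] at ha
      rw [hB.hy, hB.hy, hB.vy] at ha
      omega
    | succ y => exact h2 x y

/-- the parameter of the construction for `n` cities -/
theorem final_param (s₁ n : ℕ) (hn : 10 ^ 12 * s₁ ^ 14 ≤ n) (h1 : 1 ≤ s₁) :
    ∃ s, s₁ ≤ s ∧ 10 ^ 12 * s ^ 14 ≤ n ∧ n ≤ 10 ^ 20 * s ^ 14 := by
  have hex : ∃ s, n < 10 ^ 12 * (s + 1) ^ 14 := by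
    refine ⟨n, ?_⟩
    have : n + 1 ≤ (n + 1) ^ 14 := Nat.le_self_pow (by norm_num) _
    omega
  classical
  have hs := Nat.find_spec hex
  have hm := fun m (h : m < Nat.find hex) => Nat.find_min hex h
  generalize Nat.find hex = s at hs hm
  have h2 : s₁ ≤ s := by
    by_contra hcon
    have : (s + 1) ^ 14 ≤ s₁ ^ 14 := Nat.pow_le_pow_left (by omega) 14
    omega
  refine ⟨s, h2, ?_, ?_⟩
  · have := hm (s - 1) (by omega)
    have e : s - 1 + 1 = s := by omega
    rw [e] at this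
    omega
  · have h3 : (s + 1) ^ 14 ≤ (2 * s) ^ 14 := Nat.pow_le_pow_left (by omega) 14
    have h4 : (2 * s) ^ 14 = 16384 * s ^ 14 := by ring
    rw [h4] at h3
    omega

theorem final_pow {n : ℕ} (hn : 20 ≤ n) {a b : ℕ} (hab : a ≤ b) : n ^ a ≤ n ^ b :=
  Nat.pow_le_pow_right (by omega) hab

theorem st_FINAL (hLB : ST_LB) (hSND : ST_SND) (hBOX : ST_BOX) (hCST : ST_CST) (hFDG : ST_FDG)
    (hSIZ : ST_SIZ) (hFRM : ST_FRM) (hUNS : ST_UNS) (hSZF : ST_SZF) (hSPL : ST_SPL)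
    (hPAD : ST_PAD) (hGAP : ST_GAP) (hEX : ST_EX) (hNUM : ST_NUM) : specFinal := by
  obtain ⟨s₀, hs₀⟩ := hNUM
  refine ⟨30, 10 ^ 12 * (s₀ + 20) ^ 14, fun n hn => ?_⟩
  obtain ⟨s, hs1, hsn, hns⟩ := final_param (s₀ + 20) n hn (by omega)
  have hs2 : s₀ ≤ s := by omega
  have hs3 : 20 ≤ s := by omega
  -- the formula
  obtain ⟨k, hk⟩ : ∃ k, k = 4 * s ^ 2 + 1 := ⟨_, rfl⟩
  obtain ⟨q, hq⟩ : ∃ q, q = 8 * s := ⟨_, rfl⟩
  obtain ⟨l, hl⟩ : ∃ l, l = 4 * s ^ 2 := ⟨_, rfl⟩
  have hq0 : 0 < q := by omega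
  have hs2' : s ≤ s ^ 2 := by nlinarith
  have hl0 : 0 < l := by omega
  have hk2 : s ≤ k := by omega
  have hlk : l < k := by omega
  obtain ⟨S, hS⟩ : ∃ S, S = subs (ccF k q l) := ⟨_, rfl⟩
  obtain ⟨M, hM⟩ : ∃ M, M = ccM k q l := ⟨_, rfl⟩
  obtain ⟨T, hT⟩ : ∃ T, T = tl (k * q) l := ⟨_, rfl⟩
  have hσ : (Fin k → Fin q) := fun _ => ⟨0, hq0⟩
  have hχ : (Fin (k * q) → Fin l) := fun _ => ⟨0, hl0⟩
  have hvar : ∀ c ∈ ccF k q l, ∀ y ∈ c, y.1 < 2 * M + 1 := by
    rw [hM]; exact (hFRM k q l hσ hχ).2.2.1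
  have hVT : VT M T := by rw [hM, hT]; exact (hFRM k q l hσ hχ).2.2.2
  have hrow : ∀ k' i d, sg S k' = some (i, d) → i < 2 * M + 1 := by
    rw [hS]; exact Pool.Agent.Helper99.Grid.subs_bound hvar
  have h00 : 0 < S.length → sg S 0 = none := by
    rw [hS]; exact Pool.Agent.Helper99.Grid.subs_zero
  obtain ⟨N, hN'⟩ : ∃ N, N = 4 * S.length + 12 * M + 34 := ⟨_, rfl⟩
  have hB : Box (hN S M T) (vN S M T) N := by rw [hN']; exact hBOX S M T
  have hc : Costs (hN S M T) (vN S M T) := hCST _ _ _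
  -- the vertices
  obtain ⟨L, hL⟩ : ∃ L, L = finL (hN S M T) (vN S M T) N := ⟨_, rfl⟩
  have hLn : L.Nodup := by rw [hL]; exact finL_nodup _ _ _
  have hLm : ∀ a, a ∈ L ↔ Vert (hN S M T) (vN S M T) a := by rw [hL]; exact mem_finL hB
  obtain ⟨z1, z2⟩ := hSIZ S M T L hLn hLm
  obtain ⟨y1, y2⟩ := hSZF k q l (by omega) (by omega) (by omega)
  rw [← hS] at y1 y2
  have hnk : s ≤ L.length := by omega
  obtain ⟨W, hW⟩ : ∃ W, W + (L.map (Pool.Agent.Helper68.LP.fdeg (hN S M T) (vN S M T))).sum =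
      2 * L.length := by
    have := fin_sum_le (Pool.Agent.Helper68.LP.fdeg (hN S M T) (vN S M T)) L
      (fun a ha => final_fdeg hFDG hB hrow h00 hVT ((hLm a).1 ha))
    exact ⟨2 * L.length - (L.map (Pool.Agent.Helper68.LP.fdeg (hN S M T) (vN S M T))).sum,
      by omega⟩
  have hfsum : ∑ i : Fin L.length, Pool.Agent.Helper68.LP.fdeg (hN S M T) (vN S M T) (L.get i) =
      (L.map (Pool.Agent.Helper68.LP.fdeg (hN S M T) (vN S M T))).sum := by
    rw [← List.sum_ofFn]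
    congr 1
    apply List.ext_get
    · simp
    · intro k h1 h2
      simp
  have hinj : Function.Injective L.get := List.nodup_iff_injective_get.mp hLn
  have hvm : ∀ a, Vert (hN S M T) (vN S M T) a ↔ ∃ i, L.get i = a := by
    intro a
    rw [← hLm, List.mem_iff_get]
  have hW' : W + ∑ i, Pool.Agent.Helper68.LP.fdeg (hN S M T) (vN S M T) (L.get i) =
      2 * L.length := by rw [hfsum]; exact hW
  -- the number of vertices
  have hn14 : L.length ≤ 10 ^ 12 * s ^ 14 := by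
    have hm : k * q ≤ 34 * s ^ 3 := by
      rw [hk, hq]
      have e1 : (4 * s ^ 2 + 1) * (8 * s) = 32 * s ^ 3 + 8 * s := by ring
      have e2 : 8 * s ≤ 2 * s ^ 3 := by
        have : s ^ 3 = s * s * s := by ring
        nlinarith [Nat.mul_le_mul hs3 hs3]
      omega
    have hm2 : (k * q) ^ 2 ≤ 1156 * s ^ 6 := by
      calc (k * q) ^ 2 ≤ (34 * s ^ 3) ^ 2 := Nat.pow_le_pow_left hm 2
        _ = 1156 * s ^ 6 := by ring
    have hml : (k * q) ^ 2 * l ≤ 4624 * s ^ 8 := by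
      rw [hl]
      calc (k * q) ^ 2 * (4 * s ^ 2) ≤ (1156 * s ^ 6) * (4 * s ^ 2) := Nat.mul_le_mul_right _ hm2
        _ = 4624 * s ^ 8 := by ring
    have hs8 : 1 ≤ s ^ 8 := Nat.one_le_pow _ _ (by omega)
    have hs6 : 1 ≤ s ^ 6 := Nat.one_le_pow _ _ (by omega)
    have hS8 : 24 + 4 * S.length ≤ 370000 * s ^ 8 := by
      have : 20 * (k * q) ^ 2 * l = 20 * ((k * q) ^ 2 * l) := by ring
      omega
    have hM6 : M ≤ 1400 * s ^ 6 := by
      rw [hM]
      unfold ccM
      have e1 : k * q ≤ 34 * s ^ 6 := by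
        refine hm.trans ?_
        exact Nat.mul_le_mul_left _ (Nat.pow_le_pow_right (by omega) (by norm_num))
      have e2 : k * q * l ≤ 136 * s ^ 6 := by
        rw [hl]
        calc k * q * (4 * s ^ 2) ≤ (34 * s ^ 3) * (4 * s ^ 2) := Nat.mul_le_mul_right _ hm
          _ = 136 * s ^ 5 := by ring
          _ ≤ 136 * s ^ 6 :=
            Nat.mul_le_mul_left _ (Nat.pow_le_pow_right (by omega) (by norm_num))
      have e3 : k * q * (k * q) ≤ 1156 * s ^ 6 := by
        have : k * q * (k * q) = (k * q) ^ 2 := by ring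
        omega
      omega
    have hM7 : 10 + 12 * M ≤ 16810 * s ^ 6 := by omega
    calc L.length ≤ (24 + 4 * S.length) * (10 + 12 * M) := z1
      _ ≤ (370000 * s ^ 8) * (16810 * s ^ 6) := Nat.mul_le_mul hS8 hM7
      _ = 6219700000 * s ^ 14 := by ring
      _ ≤ 10 ^ 12 * s ^ 14 := Nat.mul_le_mul_right _ (by norm_num)
  -- the split
  have hsp : ∃ (f : (Fin k → Fin q) → Pair L.length → ℤ)
      (g : (Fin (k * q) → Fin l) → Pair L.length → ℤ) (e₀ : Pair L.length),
      Spl (TwoFactor (fun i => pert (dbl (hN S M T)) (dbl (vN S M T))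
        (scale L.length (2 * N) 4 W : ℕ) (L.get i))
        ((L.length * scale L.length (2 * N) 4 W + (2 * W + 1) : ℕ) : ℝ))
        (fun σ => clq (trv σ)) (fun χ => mpt χ) f g ∧ ∀ σ χ, f σ e₀ + g χ e₀ = 1 := by
    rw [hS, hM, hT] at hB hvm hW'
    have := hSPL k q l N W L.length L.get hq0 hl0 (by omega) (by omega) hB hinj hvm hW'
    rw [hS, hM, hT]
    exact this
  obtain ⟨f, g, e₀, hfg, he₀⟩ := hsp
  -- no short tours
  have hlong := hGAP (hN S M T) (vN S M T) N W L hB hc hLn hLm (by omega) hW (by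
    intro hTr
    rw [hS, hM, hT] at hTr
    exact hUNS k q l hlk (hSND (ccF k q l) (ccM k q l) (tl (k * q) l)
      (by rw [← hM]; exact hvar) (by rw [← hM, ← hT]; exact hVT) hTr))
  -- sizes
  have hsz : scale L.length (2 * N) 4 W * N + 8 * N ≤ L.length ^ 20 :=
    fin_size (by omega) (by omega) (by omega)
  have hpt : ∀ i, 0 ≤ (pert (dbl (hN S M T)) (dbl (vN S M T))
      (scale L.length (2 * N) 4 W : ℕ) (L.get i)).1 ∧
      (pert (dbl (hN S M T)) (dbl (vN S M T))
      (scale L.length (2 * N) 4 W : ℕ) (L.get i)).1 ≤ ((L.length ^ 20 : ℕ) : ℤ) ∧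
      0 ≤ (pert (dbl (hN S M T)) (dbl (vN S M T))
      (scale L.length (2 * N) 4 W : ℕ) (L.get i)).2 ∧
      (pert (dbl (hN S M T)) (dbl (vN S M T))
      (scale L.length (2 * N) 4 W : ℕ) (L.get i)).2 ≤ ((L.length ^ 20 : ℕ) : ℤ) := by
    intro i
    have hb := vert_box hB ((hLm _).1 (List.get_mem L i))
    obtain ⟨p1, p2, p3, p4⟩ := fin_pert (Sc := scale L.length (2 * N) 4 W) hc hb
    have hsz' : ((scale L.length (2 * N) 4 W * N + 8 * N : ℕ) : ℤ) ≤ ((L.length ^ 20 : ℕ) : ℤ) := by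
      exact_mod_cast hsz
    exact ⟨p1, p2.trans hsz', p3, p4.trans hsz'⟩
  have hpinj : Function.Injective (fun i => pert (dbl (hN S M T)) (dbl (vN S M T))
      (scale L.length (2 * N) 4 W : ℕ) (L.get i)) := by
    refine Pool.Agent.Helper68.LP.pert_injective (N := N) (C := 8) ⟨?_, ?_⟩ _ hinj
      (fun i => vert_box hB ((hLm _).1 (List.get_mem _ i))) ?_ ?_
    · intro x y
      unfold dbl
      have := hc.1 x y
      rw [abs_of_nonneg (by positivity)]
      push_cast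
      omega
    · intro x y
      unfold dbl
      have := hc.2 x y
      rw [abs_of_nonneg (by positivity)]
      push_cast
      omega
    · unfold scale
      push_cast
      have : (0 : ℤ) ≤ 8 * L.length * (2 * N * 4) ^ 2 := by positivity
      have : (0 : ℤ) ≤ W := by positivity
      have : (18 : ℤ) ≤ N := by
        have : 18 ≤ N := by omega
        exact_mod_cast this
      linarith
    · unfold scale
      push_cast
      have : (0 : ℤ) ≤ 8 * L.length * (2 * N * 4) ^ 2 := by positivity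
      have : (0 : ℤ) ≤ W := by positivity
      have : (0 : ℤ) ≤ N := by positivity
      linarith
  have hB0 : L.length * scale L.length (2 * N) 4 W + (2 * W + 1) ≤ 2 * L.length ^ 21 := by
    have h1 : scale L.length (2 * N) 4 W ≤ scale L.length (2 * N) 4 W * N :=
      Nat.le_mul_of_pos_right _ (by omega)
    have h2 : L.length * scale L.length (2 * N) 4 W ≤ L.length * L.length ^ 20 :=
      Nat.mul_le_mul_left _ (by omega)
    have h3 : L.length * L.length ^ 20 = L.length ^ 21 := by ring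
    have h4 : 2 * W + 1 ≤ L.length ^ 21 := by
      have h5 : 20 ^ 20 * L.length ≤ L.length ^ 20 * L.length :=
        Nat.mul_le_mul_right _ (Nat.pow_le_pow_left (by omega) 20)
      have h6 : L.length ^ 20 * L.length = L.length ^ 21 := by ring
      have : 5 * L.length ≤ 20 ^ 20 * L.length := Nat.mul_le_mul_right _ (by norm_num)
      omega
    omega
  -- generalize
  generalize hPdef : (fun i => pert (dbl (hN S M T)) (dbl (vN S M T))
    (scale L.length (2 * N) 4 W : ℕ) (L.get i)) = P₀ at hfg hlong hpinj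
  have hpt' : ∀ i, 0 ≤ (P₀ i).1 ∧ (P₀ i).1 ≤ ((L.length ^ 20 : ℕ) : ℤ) ∧
      0 ≤ (P₀ i).2 ∧ (P₀ i).2 ≤ ((L.length ^ 20 : ℕ) : ℤ) := by
    rw [← hPdef]
    exact hpt
  obtain ⟨B₀, hB₀⟩ : ∃ B₀, B₀ = L.length * scale L.length (2 * N) 4 W + (2 * W + 1) := ⟨_, rfl⟩
  rw [← hB₀] at hfg hB0
  have hlong' : ∀ σ, ((B₀ : ℝ) + 1) ≤ tourLen P₀ σ := by
    intro σ
    have h1 := hlong σ
    have h2 : L.length * scale L.length (2 * N) 4 W + (2 * W + 2) = B₀ + 1 := by omega
    rw [h2] at h1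
    push_cast at h1
    exact h1
  have hLs : 20 ≤ L.length := by omega
  have hLn' : L.length ≤ n := by omega
  clear hlong hpt hPdef hsz hW' hW hfsum hinj hvm z1 z2 hLn hLm hL hB hc hN'
  obtain ⟨n', hn'⟩ : ∃ n', n' = L.length := ⟨_, rfl⟩
  subst hk hq hl
  obtain ⟨t, rfl⟩ : ∃ t, n = L.length + t := ⟨n - L.length, by omega⟩
  -- the placement
  obtain ⟨lam, hlam⟩ : ∃ lam, lam = 4 * (L.length + t) := ⟨_, rfl⟩
  obtain ⟨f', g', hfg'⟩ := hPAD L.length _ t lam _ _ P₀ (B₀ : ℝ) _ _ f g e₀ (by omega) hfg he₀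
  have hn20 : 20 ≤ L.length + t := by omega
  have hBle : lam * B₀ + 2 * t ≤ (L.length + t) ^ 30 := by
    have h1 : L.length ^ 21 ≤ (L.length + t) ^ 21 := Nat.pow_le_pow_left (by omega) 21
    have h2 : lam * B₀ ≤ lam * (2 * (L.length + t) ^ 21) := Nat.mul_le_mul_left _ (by omega)
    have h3 : lam * (2 * (L.length + t) ^ 21) = 8 * (L.length + t) ^ 22 := by rw [hlam]; ring
    have h4 : 2 * t ≤ 2 * (L.length + t) ^ 22 := by
      have : L.length + t ≤ (L.length + t) ^ 22 := Nat.le_self_pow (by norm_num) _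
      omega
    have h5 : 10 * (L.length + t) ^ 22 ≤ (L.length + t) ^ 8 * (L.length + t) ^ 22 := by
      apply Nat.mul_le_mul_right
      calc 10 ≤ 20 ^ 8 := by norm_num
        _ ≤ (L.length + t) ^ 8 := Nat.pow_le_pow_left hn20 8
    have h6 : (L.length + t) ^ 8 * (L.length + t) ^ 22 = (L.length + t) ^ 30 := by ring
    omega
  have htour : ∀ σ, (1 + 1 / ((L.length + t : ℕ) : ℝ) ^ 30) * ((lam * B₀ + 2 * t : ℕ) : ℝ) ≤
      tourLen (padded lam t e₀.1.1 P₀) σ := by
    intro σ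
    obtain ⟨τ, hτ⟩ := Pool.Agent.Helper68.LP.exists_remove lam t e₀.1.1 P₀ σ
    have h1 : (lam : ℝ) * tourLen P₀ τ ≤ tourLen (padded lam t e₀.1.1 P₀) σ := hτ
    have h2 := hlong' τ
    have h3 : (lam : ℝ) * ((B₀ : ℝ) + 1) ≤ lam * tourLen P₀ τ :=
      mul_le_mul_of_nonneg_left h2 (Nat.cast_nonneg _)
    refine le_trans ?_ (h3.trans h1)
    have hpos : (0 : ℝ) < ((L.length + t : ℕ) : ℝ) ^ 30 := by
      have : (0 : ℝ) < ((L.length + t : ℕ) : ℝ) := by exact_mod_cast (by omega : 0 < L.length + t)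
      positivity
    have h4 : (1 / ((L.length + t : ℕ) : ℝ) ^ 30) * ((lam * B₀ + 2 * t : ℕ) : ℝ) ≤ 1 := by
      rw [one_div, inv_mul_le_iff₀ hpos, mul_one]
      exact_mod_cast hBle
    have h5 : (lam : ℝ) = 4 * ((L.length : ℝ) + t) := by rw [hlam]; push_cast; ring
    have h6 : (20 : ℝ) ≤ L.length := by exact_mod_cast hLs
    have h7 : (0 : ℝ) ≤ t := Nat.cast_nonneg _
    rw [add_mul, one_mul]
    push_cast at h4 ⊢
    nlinarith
  have hBpos : 0 < lam * B₀ + 2 * t := by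
    have h1 : 0 < lam := by omega
    have h2 : 0 < B₀ := by omega
    have := Nat.mul_pos h1 h2
    omega
  refine ⟨padded lam t e₀.1.1 P₀, lam * B₀ + 2 * t, hBpos, ⟨?_, ?_⟩, htour, ?_, ?_⟩
  · exact Pool.Agent.Helper68.LP.padded_injective (by omega) _ hpinj
  · have hbd : lam * L.length ^ 20 + (t + 1) ≤ (L.length + t) ^ 30 := by
      have h1 : L.length ^ 20 ≤ (L.length + t) ^ 20 := Nat.pow_le_pow_left (by omega) 20
      have h2 : lam * L.length ^ 20 ≤ lam * (L.length + t) ^ 20 := Nat.mul_le_mul_left _ h1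
      have h3 : lam * (L.length + t) ^ 20 = 4 * (L.length + t) ^ 21 := by rw [hlam]; ring
      have h4 : t + 1 ≤ (L.length + t) ^ 21 := by
        have : L.length + t ≤ (L.length + t) ^ 21 := Nat.le_self_pow (by norm_num) _
        omega
      have h5 : 5 * (L.length + t) ^ 21 ≤ (L.length + t) ^ 9 * (L.length + t) ^ 21 := by
        apply Nat.mul_le_mul_right
        calc 5 ≤ 20 ^ 9 := by norm_num
          _ ≤ (L.length + t) ^ 9 := Nat.pow_le_pow_left hn20 9
      have h6 : (L.length + t) ^ 9 * (L.length + t) ^ 21 = (L.length + t) ^ 30 := by ring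
      omega
    have hbd' : (lam : ℤ) * (L.length : ℤ) ^ 20 + (t + 1) ≤ ((L.length + t : ℕ) : ℤ) ^ 30 := by
      exact_mod_cast hbd
    have key : ∀ c : ℤ, 0 ≤ c → c ≤ ((L.length ^ 20 : ℕ) : ℤ) →
        0 ≤ (lam : ℤ) * c ∧ (lam : ℤ) * c ≤ (lam : ℤ) * (L.length : ℤ) ^ 20 := by
      intro c h1 h2
      refine ⟨by positivity, mul_le_mul_of_nonneg_left ?_ (by positivity)⟩
      push_cast at h2
      exact h2
    intro i
    refine Fin.addCases (fun i => ?_) (fun j => ?_) i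
    · have e : padded lam t e₀.1.1 P₀ (Fin.castAdd t i) = sc lam (P₀ i) := by
        unfold padded
        rw [Fin.append_left]
      rw [e]
      obtain ⟨a1, a2, a3, a4⟩ := hpt' i
      obtain ⟨b1, b2⟩ := key _ a1 a2
      obtain ⟨b3, b4⟩ := key _ a3 a4
      unfold sc
      push_cast
      push_cast at hbd'
      exact ⟨b1, by linarith, b3, by linarith⟩
    · have e : padded lam t e₀.1.1 P₀ (Fin.natAdd L.length j) = near (sc lam (P₀ e₀.1.1)) j := by
        unfold padded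
        rw [Fin.append_right]
      rw [e]
      obtain ⟨a1, a2, a3, a4⟩ := hpt' e₀.1.1
      obtain ⟨b1, b2⟩ := key _ a1 a2
      obtain ⟨b3, b4⟩ := key _ a3 a4
      have hj : ((j : ℕ) : ℤ) + 1 ≤ t := by
        have := j.2
        omega
      have hj0 : (0 : ℤ) ≤ ((j : ℕ) : ℤ) := by positivity
      unfold near sc
      push_cast
      push_cast at hbd'
      exact ⟨by linarith, by linarith, b3, by linarith⟩
  · apply hEX _ _ _ (by omega)
    intro σ
    refine lt_of_lt_of_le ?_ (htour σ)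
    have hpos : (0 : ℝ) < 1 / ((L.length + t : ℕ) : ℝ) ^ 30 := by
      have : (0 : ℝ) < ((L.length + t : ℕ) : ℝ) := by exact_mod_cast (by omega : 0 < L.length + t)
      positivity
    have hb : (0 : ℝ) < ((lam * B₀ + 2 * t : ℕ) : ℝ) := by exact_mod_cast hBpos
    have := mul_pos hpos hb
    rw [add_mul, one_mul]
    linarith
  · intro r hr
    apply hs₀ s hs2 (L.length + t) hns r
    have e : ((lam * B₀ + 2 * t : ℕ) : ℝ) = (lam : ℝ) * (B₀ : ℝ) + 2 * (t : ℝ) := by
      push_cast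
      ring
    rw [e] at hr
    exact hLB s (by omega) (L.length + t) _ f' g' hfg' r hr

end Pool.Agent.Helper96.SE
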