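import Pool.Agent.Helper31.BC.All
import Pool.Agent.Helper96.SE.Final
import Pool.Agent.Helper32.SE.BOX
import Pool.Agent.Helper48.SE.CFL
import Pool.Agent.Helper91.SE.CLS
import Pool.Agent.Helper83.SE.CN1
import Pool.Agent.Helper72.SE.CN2
import Pool.Agent.Helper95.SE.CNN
import Pool.Agent.Helper52.SE.CST
import Pool.Agent.Helper50.SE.CUT
import Pool.Agent.Helper31.SE.CYC
import Pool.Agent.Helper63.SE.DEG
import Pool.Agent.Helper53.SE.EX
import Pool.Agent.Helper78.SE.FDG
import Pool.Agent.Helper58.SE.FRM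
import Pool.Agent.Helper30.SE.FRP
import Pool.Agent.Helper31.SE.GAP
import Pool.Agent.Helper61.SE.LB
import Pool.Agent.Helper24.SE.LIT
import Pool.Agent.Helper57.SE.NAN
import Pool.Agent.Helper24.SE.NUM
import Pool.Agent.Helper7.SE.PAD
import Pool.Agent.Helper41.SE.PD1
import Pool.Agent.Helper79.SE.PTY
import Pool.Agent.Helper38.SE.REL
import Pool.Agent.Helper67.SE.SBS
import Pool.Agent.Helper8.SE.SIZ
import Pool.Agent.Helper37.SE.SND
import Pool.Agent.Helper26.SE.SPL
import Pool.Agent.Helper67.SE.SZF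
import Pool.Agent.Helper41.SE.UNS
import Pool.Agent.Helper44.SE.XOR

set_option autoImplicit false

/-! # Branch-and-cut proofs from the subtour elimination inequalities: the theorem -/

namespace Pool.Agent.Helper96.SE

theorem all_LB : ST_LB :=
  st_LB Pool.Agent.Helper31.BC.st_CIRC Pool.Agent.Helper31.BC.all_EV Pool.Agent.Helper31.BC.st_COR

theorem all_SND : ST_SND := st_SND st_XOR st_CLS (st_NAN st_CYC) st_BOX

theorem all_CNN : ST_CNN := st_CNN st_CN1 st_CN2

theorem all_SPL : ST_SPL :=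
  st_SPL st_DEG all_CNN st_PTY (st_REL Pool.Agent.Helper31.BC.st_SUM) st_CUT st_FRM st_FRP
    st_LIT st_CFL st_SBS st_CST Pool.Agent.Helper31.BC.st_CHS

theorem all_FINAL : specFinal :=
  st_FINAL all_LB all_SND st_BOX st_CST st_FDG st_SIZ st_FRM st_UNS st_SZF all_SPL
    (st_PAD st_PD1) st_GAP (st_EX Pool.Agent.Helper31.BC.st_TR) st_NUM

end Pool.Agent.Helper96.SE
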