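import Pool.Agent.Helper96.SE.Stmts2
import Pool.Agent.Helper96.SE.Final

set_option autoImplicit false

/-! Assembly of the lower bound in which only global connectedness is not free. -/

namespace Pool.Agent.Helper96.SE

open Pool.Agent.Helper31.BC (dst tourLen Placement Pair Ineq Refutes finL finL_nodup mem_finL
  fin_sum_le fin_pert fin_size)
open Pool.Agent.Helper38.MR (Edge Graph clq mpt Gate Simple out trv)
open Pool.Agent.Helper52.Grid
open Pool.Agent.Helper68.LP (pert dbl ucost scale Costs vert_box padded sc near)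

/-- fewer vectors, fewer conditions -/
theorem fin2_mono {n : ℕ} {K K' : (Pair n → ℤ) → Prop} (hK : ∀ x, K' x → K x)
    {Γ : Set (Ineq n)} {t : ℕ} (h : Refutes K Γ t) : Refutes K' Γ t := by
  induction h with
  | done u hu h => exact Refutes.done u hu fun x hx => h x (hK x hx)
  | cut u w l hu hw h _ ih =>
    exact Refutes.cut u w l hu hw (fun x hx h1 h2 => h x (hK x hx) h1 h2) ih
  | branch a b _ _ ih1 ih2 => exact Refutes.branch a b ih1 ih2

theorem fin2_long {n : ℕ} {P : Fin n → ℤ × ℤ} {B m : ℝ} (x : Pair n → ℤ)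
    (h : LongTwoFactor P B m x) : TwoFactor P B x := ⟨h.bin, h.deg, h.len⟩

theorem fin2_spl {n m : ℕ} {A B : Type} {P : Fin n → ℤ × ℤ} {b c c' : ℝ} (hc : c' ≤ c)
    {gA : A → Graph m} {gB : B → Graph m} {f : A → Pair n → ℤ} {g : B → Pair n → ℤ}
    (hs : Spl (LongTwoFactor P b c) gA gB f g) : Spl (LongTwoFactor P b c') gA gB f g :=
  ⟨fun α β => ⟨(hs.mem α β).bin, (hs.mem α β).deg, (hs.mem α β).len,
    fun S h1 h2 h3 => (hs.mem α β).cut S h1 h2 (h3.trans hc)⟩, hs.leaf⟩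

/-- enumeration of the marked edges -/
theorem fin2_enum {n : ℕ} (E : Finset (Pair n)) (hE : E.Nonempty) :
    ∃ F : ℕ → Pair n, (∀ j, j < E.card → F j ∈ E) ∧ (∀ e ∈ E, ∃ j, j < E.card ∧ F j = e) ∧
      ∀ i j, i < E.card → j < E.card → F i = F j → i = j := by
  classical
  obtain ⟨e₀, he₀⟩ := hE
  refine ⟨fun j => if h : j < E.card then (E.equivFin.symm ⟨j, h⟩).1 else e₀, ?_, ?_, ?_⟩
  · intro j hj
    simp only [dif_pos hj]
    exact (E.equivFin.symm ⟨j, hj⟩).2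
  · intro e he
    refine ⟨(E.equivFin ⟨e, he⟩).1, (E.equivFin ⟨e, he⟩).2, ?_⟩
    simp only [dif_pos (E.equivFin ⟨e, he⟩).2, Fin.eta, Equiv.symm_apply_apply]
  · intro i j hi hj h
    simp only [dif_pos hi, dif_pos hj] at h
    have h2 := E.equivFin.symm.injective (Subtype.ext h)
    exact congrArg Fin.val h2

theorem st_FINAL2 (hLB : ST_LB) (hSND : ST_SND) (hBOX : ST_BOX) (hCST : ST_CST) (hFDG : ST_FDG)
    (hSIZ : ST_SIZ) (hFRM : ST_FRM) (hUNS : ST_UNS) (hSZF : ST_SZF) (hSPL : ST_SPL2)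
    (hMPD : ST_MPD) (hRMV : ST_RMV) (hINJ : ST_INJ) (hGAP : ST_GAP) (hEX : ST_EX)
    (hNUM : ST_NUM2) : specFinal2 := by
  refine ⟨30, fun δ hδ hδ' => ?_⟩
  obtain ⟨n₀, hn₀⟩ := hNUM δ hδ hδ'
  refine ⟨n₀, fun n hn => ?_⟩
  obtain ⟨s, hs3, hsn, hJT, hexp⟩ := hn₀ n hn
  -- the formula
  obtain ⟨k, hk⟩ : ∃ k, k = 4 * s ^ 2 + 1 := ⟨_, rfl⟩
  obtain ⟨q, hq⟩ : ∃ q, q = 8 * s := ⟨_, rfl⟩
  obtain ⟨l, hl⟩ : ∃ l, l = 4 * s ^ 2 := ⟨_, rfl⟩
  have hq0 : 0 < q := by omega
  have hs2' : s ≤ s ^ 2 := by nlinarith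
  have hl0 : 0 < l := by omega
  have hk2 : s ≤ k := by omega
  have hlk : l < k := by omega
  obtain ⟨S, hS⟩ : ∃ S, S = subs (ccF k q l) := ⟨_, rfl⟩
  obtain ⟨M, hM⟩ : ∃ M, M = ccM k q l := ⟨_, rfl⟩
  obtain ⟨T, hT⟩ : ∃ T, T = tl (k * q) l := ⟨_, rfl⟩
  have hσ : (Fin k → Fin q) := fun _ => ⟨0, hq0⟩
  have hχ : (Fin (k * q) → Fin l) := fun _ => ⟨0, hl0⟩
  have hvar : ∀ c ∈ ccF k q l, ∀ y ∈ c, y.1 < 2 * M + 1 := by
    rw [hM]; exact (hFRM k q l hσ hχ).2.2.1
  have hVT : VT M T := by rw [hM, hT]; exact (hFRM k q l hσ hχ).2.2.2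
  have hrow : ∀ k' i d, sg S k' = some (i, d) → i < 2 * M + 1 := by
    rw [hS]; exact Pool.Agent.Helper99.Grid.subs_bound hvar
  have h00 : 0 < S.length → sg S 0 = none := by
    rw [hS]; exact Pool.Agent.Helper99.Grid.subs_zero
  obtain ⟨N, hN'⟩ : ∃ N, N = 4 * S.length + 12 * M + 34 := ⟨_, rfl⟩
  have hB : Box (hN S M T) (vN S M T) N := by rw [hN']; exact hBOX S M T
  have hc : Costs (hN S M T) (vN S M T) := hCST _ _ _
  -- the vertices
  obtain ⟨L, hL⟩ : ∃ L, L = finL (hN S M T) (vN S M T) N := ⟨_, rfl⟩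
  have hLn : L.Nodup := by rw [hL]; exact finL_nodup _ _ _
  have hLm : ∀ a, a ∈ L ↔ Vert (hN S M T) (vN S M T) a := by rw [hL]; exact mem_finL hB
  obtain ⟨z1, z2⟩ := hSIZ S M T L hLn hLm
  obtain ⟨y1, y2⟩ := hSZF k q l (by omega) (by omega) (by omega)
  rw [← hS] at y1 y2
  have hnk : s ≤ L.length := by omega
  obtain ⟨W, hW⟩ : ∃ W, W + (L.map (Pool.Agent.Helper68.LP.fdeg (hN S M T) (vN S M T))).sum =
      2 * L.length := by
    have := fin_sum_le (Pool.Agent.Helper68.LP.fdeg (hN S M T) (vN S M T)) L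
      (fun a ha => final_fdeg hFDG hB hrow h00 hVT ((hLm a).1 ha))
    exact ⟨2 * L.length - (L.map (Pool.Agent.Helper68.LP.fdeg (hN S M T) (vN S M T))).sum,
      by omega⟩
  have hfsum : ∑ i : Fin L.length, Pool.Agent.Helper68.LP.fdeg (hN S M T) (vN S M T) (L.get i) =
      (L.map (Pool.Agent.Helper68.LP.fdeg (hN S M T) (vN S M T))).sum := by
    rw [← List.sum_ofFn]
    congr 1
    apply List.ext_get
    · simp
    · intro k h1 h2
      simp
  have hinj : Function.Injective L.get := List.nodup_iff_injective_get.mp hLn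
  have hvm : ∀ a, Vert (hN S M T) (vN S M T) a ↔ ∃ i, L.get i = a := by
    intro a
    rw [← hLm, List.mem_iff_get]
  have hW' : W + ∑ i, Pool.Agent.Helper68.LP.fdeg (hN S M T) (vN S M T) (L.get i) =
      2 * L.length := by rw [hfsum]; exact hW
  -- the number of vertices
  have hn14 : L.length ≤ 10 ^ 12 * s ^ 14 ∧ 4 * M + 1 ≤ 6000 * s ^ 6 := by
    have hm : k * q ≤ 34 * s ^ 3 := by
      rw [hk, hq]
      have e1 : (4 * s ^ 2 + 1) * (8 * s) = 32 * s ^ 3 + 8 * s := by ring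
      have e2 : 8 * s ≤ 2 * s ^ 3 := by
        have : s ^ 3 = s * s * s := by ring
        nlinarith [Nat.mul_le_mul hs3 hs3]
      omega
    have hm2 : (k * q) ^ 2 ≤ 1156 * s ^ 6 := by
      calc (k * q) ^ 2 ≤ (34 * s ^ 3) ^ 2 := Nat.pow_le_pow_left hm 2
        _ = 1156 * s ^ 6 := by ring
    have hml : (k * q) ^ 2 * l ≤ 4624 * s ^ 8 := by
      rw [hl]
      calc (k * q) ^ 2 * (4 * s ^ 2) ≤ (1156 * s ^ 6) * (4 * s ^ 2) := Nat.mul_le_mul_right _ hm2
        _ = 4624 * s ^ 8 := by ring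
    have hs8 : 1 ≤ s ^ 8 := Nat.one_le_pow _ _ (by omega)
    have hs6 : 1 ≤ s ^ 6 := Nat.one_le_pow _ _ (by omega)
    have hS8 : 24 + 4 * S.length ≤ 370000 * s ^ 8 := by
      have : 20 * (k * q) ^ 2 * l = 20 * ((k * q) ^ 2 * l) := by ring
      omega
    have hM6 : M ≤ 1400 * s ^ 6 := by
      rw [hM]
      unfold ccM
      have e1 : k * q ≤ 34 * s ^ 6 := by
        refine hm.trans ?_
        exact Nat.mul_le_mul_left _ (Nat.pow_le_pow_right (by omega) (by norm_num))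
      have e2 : k * q * l ≤ 136 * s ^ 6 := by
        rw [hl]
        calc k * q * (4 * s ^ 2) ≤ (34 * s ^ 3) * (4 * s ^ 2) := Nat.mul_le_mul_right _ hm
          _ = 136 * s ^ 5 := by ring
          _ ≤ 136 * s ^ 6 :=
            Nat.mul_le_mul_left _ (Nat.pow_le_pow_right (by omega) (by norm_num))
      have e3 : k * q * (k * q) ≤ 1156 * s ^ 6 := by
        have : k * q * (k * q) = (k * q) ^ 2 := by ring
        omega
      omega
    have hM7 : 10 + 12 * M ≤ 16810 * s ^ 6 := by omega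
    refine ⟨?_, by omega⟩
    calc L.length ≤ (24 + 4 * S.length) * (10 + 12 * M) := z1
      _ ≤ (370000 * s ^ 8) * (16810 * s ^ 6) := Nat.mul_le_mul hS8 hM7
      _ = 6219700000 * s ^ 14 := by ring
      _ ≤ 10 ^ 12 * s ^ 14 := Nat.mul_le_mul_right _ (by norm_num)
  obtain ⟨hn14, hMs⟩ := hn14
  -- the split
  have hsp : ∃ (f : (Fin k → Fin q) → Pair L.length → ℤ)
      (g : (Fin (k * q) → Fin l) → Pair L.length → ℤ) (E : Finset (Pair L.length)),
      Spl (TwoFactor (fun i => pert (dbl (hN S M T)) (dbl (vN S M T))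
        (scale L.length (2 * N) 4 W : ℕ) (L.get i))
        ((L.length * scale L.length (2 * N) 4 W + (2 * W + 1) : ℕ) : ℝ))
        (fun σ => clq (trv σ)) (fun χ => mpt χ) f g ∧
      E.Nonempty ∧ E.card ≤ 4 * M + 1 ∧
      (∀ e ∈ E, ∀ e' ∈ E, e.1.1 = e'.1.1 → e = e') ∧
      (∀ e ∈ E, ∀ σ χ, f σ e + g χ e = 1) ∧
      ∀ σ χ (S' : Finset (Fin L.length)), S'.Nonempty → S' ≠ Finset.univ →
        ¬ (subtour S').Holds (fun e => f σ e + g χ e) → ∃ e ∈ E, e.1.1 ∈ S' := by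
    rw [hS, hM, hT] at hB hvm hW'
    have := hSPL k q l N W L.length L.get hq0 hl0 (by omega) (by omega) hB hinj hvm hW'
    rw [hS, hM, hT]
    exact this
  obtain ⟨f, g, E, hfg, hEn, hEc, hEi, hE1, hEv⟩ := hsp
  -- no short tours
  have hlong := hGAP (hN S M T) (vN S M T) N W L hB hc hLn hLm (by omega) hW (by
    intro hTr
    rw [hS, hM, hT] at hTr
    exact hUNS k q l hlk (hSND (ccF k q l) (ccM k q l) (tl (k * q) l)
      (by rw [← hM]; exact hvar) (by rw [← hM, ← hT]; exact hVT) hTr))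
  -- sizes
  have hsz : scale L.length (2 * N) 4 W * N + 8 * N ≤ L.length ^ 20 :=
    fin_size (by omega) (by omega) (by omega)
  have hpt : ∀ i, 0 ≤ (pert (dbl (hN S M T)) (dbl (vN S M T))
      (scale L.length (2 * N) 4 W : ℕ) (L.get i)).1 ∧
      (pert (dbl (hN S M T)) (dbl (vN S M T))
      (scale L.length (2 * N) 4 W : ℕ) (L.get i)).1 ≤ ((L.length ^ 20 : ℕ) : ℤ) ∧
      0 ≤ (pert (dbl (hN S M T)) (dbl (vN S M T))
      (scale L.length (2 * N) 4 W : ℕ) (L.get i)).2 ∧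
      (pert (dbl (hN S M T)) (dbl (vN S M T))
      (scale L.length (2 * N) 4 W : ℕ) (L.get i)).2 ≤ ((L.length ^ 20 : ℕ) : ℤ) := by
    intro i
    have hb := vert_box hB ((hLm _).1 (List.get_mem L i))
    obtain ⟨p1, p2, p3, p4⟩ := fin_pert (Sc := scale L.length (2 * N) 4 W) hc hb
    have hsz' : ((scale L.length (2 * N) 4 W * N + 8 * N : ℕ) : ℤ) ≤ ((L.length ^ 20 : ℕ) : ℤ) := by
      exact_mod_cast hsz
    exact ⟨p1, p2.trans hsz', p3, p4.trans hsz'⟩
  have hpinj : Function.Injective (fun i => pert (dbl (hN S M T)) (dbl (vN S M T))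
      (scale L.length (2 * N) 4 W : ℕ) (L.get i)) := by
    refine Pool.Agent.Helper68.LP.pert_injective (N := N) (C := 8) ⟨?_, ?_⟩ _ hinj
      (fun i => vert_box hB ((hLm _).1 (List.get_mem _ i))) ?_ ?_
    · intro x y
      unfold dbl
      have := hc.1 x y
      rw [abs_of_nonneg (by positivity)]
      push_cast
      omega
    · intro x y
      unfold dbl
      have := hc.2 x y
      rw [abs_of_nonneg (by positivity)]
      push_cast
      omega
    · unfold scale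
      push_cast
      have : (0 : ℤ) ≤ 8 * L.length * (2 * N * 4) ^ 2 := by positivity
      have : (0 : ℤ) ≤ W := by positivity
      have : (18 : ℤ) ≤ N := by
        have : 18 ≤ N := by omega
        exact_mod_cast this
      linarith
    · unfold scale
      push_cast
      have : (0 : ℤ) ≤ 8 * L.length * (2 * N * 4) ^ 2 := by positivity
      have : (0 : ℤ) ≤ W := by positivity
      have : (0 : ℤ) ≤ N := by positivity
      linarith
  have hB0 : L.length * scale L.length (2 * N) 4 W + (2 * W + 1) ≤ 2 * L.length ^ 21 := by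
    have h1 : scale L.length (2 * N) 4 W ≤ scale L.length (2 * N) 4 W * N :=
      Nat.le_mul_of_pos_right _ (by omega)
    have h2 : L.length * scale L.length (2 * N) 4 W ≤ L.length * L.length ^ 20 :=
      Nat.mul_le_mul_left _ (by omega)
    have h3 : L.length * L.length ^ 20 = L.length ^ 21 := by ring
    have h4 : 2 * W + 1 ≤ L.length ^ 21 := by
      have h5 : 20 ^ 20 * L.length ≤ L.length ^ 20 * L.length :=
        Nat.mul_le_mul_right _ (Nat.pow_le_pow_left (by omega) 20)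
      have h6 : L.length ^ 20 * L.length = L.length ^ 21 := by ring
      have : 5 * L.length ≤ 20 ^ 20 * L.length := Nat.mul_le_mul_right _ (by norm_num)
      omega
    omega
  -- generalize
  generalize hPdef : (fun i => pert (dbl (hN S M T)) (dbl (vN S M T))
    (scale L.length (2 * N) 4 W : ℕ) (L.get i)) = P₀ at hfg hlong hpinj
  have hpt' : ∀ i, 0 ≤ (P₀ i).1 ∧ (P₀ i).1 ≤ ((L.length ^ 20 : ℕ) : ℤ) ∧
      0 ≤ (P₀ i).2 ∧ (P₀ i).2 ≤ ((L.length ^ 20 : ℕ) : ℤ) := by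
    rw [← hPdef]
    exact hpt
  obtain ⟨B₀, hB₀⟩ : ∃ B₀, B₀ = L.length * scale L.length (2 * N) 4 W + (2 * W + 1) := ⟨_, rfl⟩
  rw [← hB₀] at hfg hB0
  have hlong' : ∀ σ, ((B₀ : ℝ) + 1) ≤ tourLen P₀ σ := by
    intro σ
    have h1 := hlong σ
    have h2 : L.length * scale L.length (2 * N) 4 W + (2 * W + 2) = B₀ + 1 := by omega
    rw [h2] at h1
    push_cast at h1
    exact h1
  have hLs : 20 ≤ L.length := by omega
  have hLn' : L.length ≤ n := by omega
  clear hlong hpt hPdef hsz hW' hW hfsum hinj hvm z1 z2 hLn hLm hL hB hc hN'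
  obtain ⟨n', hn'⟩ : ∃ n', n' = L.length := ⟨_, rfl⟩
  subst hk hq hl
  obtain ⟨t, rfl⟩ : ∃ t, n = L.length + t := ⟨n - L.length, by omega⟩
  have ht2 : L.length + t ≤ 2 * t := by omega
  -- the placement
  obtain ⟨F, hF1, hF2, hF3⟩ := fin2_enum E hEn
  obtain ⟨J, hJ⟩ : ∃ J, J = E.card := ⟨_, rfl⟩
  rw [← hJ] at hF1 hF2 hF3 hEc
  have hJ0 : 0 < J := by rw [hJ]; exact Finset.card_pos.2 hEn
  have hJs : J ≤ 6000 * s ^ 6 := by omega
  have hTJ := hJT J t hJ0 hJs ht2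
  have hFi : ∀ i j, i < J → j < J → (F i).1.1 = (F j).1.1 → i = j := fun i j hi hj h =>
    hF3 i j hi hj (hEi _ (hF1 i hi) _ (hF1 j hj) h)
  obtain ⟨lam, hlam⟩ : ∃ lam, lam = 4 * (L.length + t) := ⟨_, rfl⟩
  obtain ⟨f', g', hfg'⟩ := hMPD L.length _ t J lam _ _ P₀ (B₀ : ℝ) _ _ f g F (by omega) hJ0
    hFi hfg (fun j hj => hE1 _ (hF1 j hj)) (fun σ χ S' h1 h2 h3 => by
      obtain ⟨e, he, he2⟩ := hEv σ χ S' h1 h2 h3
      obtain ⟨j, hj, hj2⟩ := hF2 e he
      exact ⟨j, hj, by rw [hj2]; exact he2⟩)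
  obtain ⟨wf, hwf⟩ : ∃ wf : ℕ → Fin L.length, wf = fun j => (F j).1.1 := ⟨_, rfl⟩
  rw [← hwf] at hfg'
  have hwi : ∀ i j, i < J → j < J → wf i = wf j → i = j := by rw [hwf]; exact hFi
  have hfg2 := fin2_spl hTJ hfg'
  have hn20 : 20 ≤ L.length + t := by omega
  have hBle : lam * B₀ + 2 * t ≤ (L.length + t) ^ 30 := by
    have h1 : L.length ^ 21 ≤ (L.length + t) ^ 21 := Nat.pow_le_pow_left (by omega) 21
    have h2 : lam * B₀ ≤ lam * (2 * (L.length + t) ^ 21) := Nat.mul_le_mul_left _ (by omega)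
    have h3 : lam * (2 * (L.length + t) ^ 21) = 8 * (L.length + t) ^ 22 := by rw [hlam]; ring
    have h4 : 2 * t ≤ 2 * (L.length + t) ^ 22 := by
      have : L.length + t ≤ (L.length + t) ^ 22 := Nat.le_self_pow (by norm_num) _
      omega
    have h5 : 10 * (L.length + t) ^ 22 ≤ (L.length + t) ^ 8 * (L.length + t) ^ 22 := by
      apply Nat.mul_le_mul_right
      calc 10 ≤ 20 ^ 8 := by norm_num
        _ ≤ (L.length + t) ^ 8 := Nat.pow_le_pow_left hn20 8
    have h6 : (L.length + t) ^ 8 * (L.length + t) ^ 22 = (L.length + t) ^ 30 := by ring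
    omega
  have htour : ∀ σ, (1 + 1 / ((L.length + t : ℕ) : ℝ) ^ 30) * ((lam * B₀ + 2 * t : ℕ) : ℝ) ≤
      tourLen (spread lam t J wf P₀) σ := by
    intro σ
    obtain ⟨τ, hτ⟩ := hRMV _ lam t J wf P₀ σ
    have h1 : (lam : ℝ) * tourLen P₀ τ ≤ tourLen (spread lam t J wf P₀) σ := hτ
    have h2 := hlong' τ
    have h3 : (lam : ℝ) * ((B₀ : ℝ) + 1) ≤ lam * tourLen P₀ τ :=
      mul_le_mul_of_nonneg_left h2 (Nat.cast_nonneg _)
    refine le_trans ?_ (h3.trans h1)
    have hpos : (0 : ℝ) < ((L.length + t : ℕ) : ℝ) ^ 30 := by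
      have : (0 : ℝ) < ((L.length + t : ℕ) : ℝ) := by exact_mod_cast (by omega : 0 < L.length + t)
      positivity
    have h4 : (1 / ((L.length + t : ℕ) : ℝ) ^ 30) * ((lam * B₀ + 2 * t : ℕ) : ℝ) ≤ 1 := by
      rw [one_div, inv_mul_le_iff₀ hpos, mul_one]
      exact_mod_cast hBle
    have h5 : (lam : ℝ) = 4 * ((L.length : ℝ) + t) := by rw [hlam]; push_cast; ring
    have h6 : (20 : ℝ) ≤ L.length := by exact_mod_cast hLs
    have h7 : (0 : ℝ) ≤ t := Nat.cast_nonneg _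
    rw [add_mul, one_mul]
    push_cast at h4 ⊢
    nlinarith
  have hBpos : 0 < lam * B₀ + 2 * t := by
    have h1 : 0 < lam := by omega
    have h2 : 0 < B₀ := by omega
    have := Nat.mul_pos h1 h2
    omega
  refine ⟨spread lam t J wf P₀, lam * B₀ + 2 * t, hBpos, ⟨?_, ?_⟩, htour, ?_, ?_⟩
  · exact hINJ _ lam t J wf P₀ hpinj hJ0 (by omega) hwi
  · have hbd : lam * L.length ^ 20 + (t + 1) ≤ (L.length + t) ^ 30 := by
      have h1 : L.length ^ 20 ≤ (L.length + t) ^ 20 := Nat.pow_le_pow_left (by omega) 20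
      have h2 : lam * L.length ^ 20 ≤ lam * (L.length + t) ^ 20 := Nat.mul_le_mul_left _ h1
      have h3 : lam * (L.length + t) ^ 20 = 4 * (L.length + t) ^ 21 := by rw [hlam]; ring
      have h4 : t + 1 ≤ (L.length + t) ^ 21 := by
        have : L.length + t ≤ (L.length + t) ^ 21 := Nat.le_self_pow (by norm_num) _
        omega
      have h5 : 5 * (L.length + t) ^ 21 ≤ (L.length + t) ^ 9 * (L.length + t) ^ 21 := by
        apply Nat.mul_le_mul_right
        calc 5 ≤ 20 ^ 9 := by norm_num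
          _ ≤ (L.length + t) ^ 9 := Nat.pow_le_pow_left hn20 9
      have h6 : (L.length + t) ^ 9 * (L.length + t) ^ 21 = (L.length + t) ^ 30 := by ring
      omega
    have hbd' : (lam : ℤ) * (L.length : ℤ) ^ 20 + (t + 1) ≤ ((L.length + t : ℕ) : ℤ) ^ 30 := by
      exact_mod_cast hbd
    have key : ∀ c : ℤ, 0 ≤ c → c ≤ ((L.length ^ 20 : ℕ) : ℤ) →
        0 ≤ (lam : ℤ) * c ∧ (lam : ℤ) * c ≤ (lam : ℤ) * (L.length : ℤ) ^ 20 := by
      intro c h1 h2
      refine ⟨by positivity, mul_le_mul_of_nonneg_left ?_ (by positivity)⟩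
      push_cast at h2
      exact h2
    intro i
    refine Fin.addCases (fun i => ?_) (fun j => ?_) i
    · have e : spread lam t J wf P₀ (Fin.castAdd t i) = sc lam (P₀ i) := by
        unfold spread
        rw [Fin.append_left]
      rw [e]
      obtain ⟨a1, a2, a3, a4⟩ := hpt' i
      obtain ⟨b1, b2⟩ := key _ a1 a2
      obtain ⟨b3, b4⟩ := key _ a3 a4
      unfold sc
      push_cast
      push_cast at hbd'
      exact ⟨b1, by linarith, b3, by linarith⟩
    · have e : spread lam t J wf P₀ (Fin.natAdd L.length j) =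
          near (sc lam (P₀ (wf ((j : ℕ) % J)))) ((j : ℕ) / J) := by
        unfold spread
        rw [Fin.append_right]
      rw [e]
      obtain ⟨a1, a2, a3, a4⟩ := hpt' (wf ((j : ℕ) % J))
      obtain ⟨b1, b2⟩ := key _ a1 a2
      obtain ⟨b3, b4⟩ := key _ a3 a4
      have hj1 : (j : ℕ) / J + 1 ≤ t := by
        have h1 := j.2
        have h2 : (j : ℕ) / J ≤ (j : ℕ) := Nat.div_le_self _ _
        omega
      have hj : (((j : ℕ) / J : ℕ) : ℤ) + 1 ≤ t := by exact_mod_cast hj1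
      have hj0 : (0 : ℤ) ≤ (((j : ℕ) / J : ℕ) : ℤ) := Int.natCast_nonneg _
      obtain ⟨jj, hjj⟩ : ∃ jj : ℤ, jj = (((j : ℕ) / J : ℕ) : ℤ) := ⟨_, rfl⟩
      rw [← hjj] at hj hj0
      unfold near sc
      rw [← hjj]
      push_cast
      push_cast at hbd'
      exact ⟨by linarith, by linarith, b3, by linarith⟩
  · obtain ⟨r, hr⟩ := hEX _ (spread lam t J wf P₀) ((lam * B₀ + 2 * t : ℕ) : ℝ) (by omega) (by
      intro σ
      refine lt_of_lt_of_le ?_ (htour σ)
      have hpos : (0 : ℝ) < 1 / ((L.length + t : ℕ) : ℝ) ^ 30 := by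
        have : (0 : ℝ) < ((L.length + t : ℕ) : ℝ) := by
          exact_mod_cast (by omega : 0 < L.length + t)
        positivity
      have hb : (0 : ℝ) < ((lam * B₀ + 2 * t : ℕ) : ℝ) := by exact_mod_cast hBpos
      have := mul_pos hpos hb
      rw [add_mul, one_mul]
      linarith)
    exact ⟨r, fin2_mono fin2_long hr⟩
  · intro r hr
    apply hexp r
    have e : ((lam * B₀ + 2 * t : ℕ) : ℝ) = (lam : ℝ) * (B₀ : ℝ) + 2 * (t : ℝ) := by
      push_cast
      ring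
    rw [e] at hr
    exact hLB s (by omega) (L.length + t) _ f' g' hfg2 r hr

end Pool.Agent.Helper96.SE
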