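import Pool.Agent.Helper96.SE.All
import Pool.Agent.Helper96.SE.Final2
import Pool.Agent.Helper26.SE.CN3
import Pool.Agent.Helper89.SE.CNN3
import Pool.Agent.Helper80.SE.INJ
import Pool.Agent.Helper41.SE.MPD
import Pool.Agent.Helper35.SE.MRK
import Pool.Agent.Helper50.SE.NUM2
import Pool.Agent.Helper33.SE.PD2
import Pool.Agent.Helper80.SE.RMV
import Pool.Agent.Helper24.SE.SPL2

set_option autoImplicit false

/-! # Branch-and-cut proofs from the subtour elimination inequalities, when only global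
connectedness is not free: the theorem -/

namespace Pool.Agent.Helper96.SE

theorem all_SPL2 : ST_SPL2 :=
  st_SPL2 st_DEG all_CNN (st_CNN3 st_CN1 st_CN3) st_PTY (st_REL Pool.Agent.Helper31.BC.st_SUM)
    st_CUT st_FRM st_FRP st_LIT st_CFL st_SBS st_CST st_MRK Pool.Agent.Helper31.BC.st_CHS

theorem all_FINAL2 : specFinal2 :=
  st_FINAL2 all_LB all_SND st_BOX st_CST st_FDG st_SIZ st_FRM st_UNS st_SZF all_SPL2
    (st_MPD st_PD2) st_RMV st_INJ st_GAP (st_EX Pool.Agent.Helper31.BC.st_TR) st_NUM2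

end Pool.Agent.Helper96.SE
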