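import Pool.Agent.Helper96.SE.Stmts

set_option autoImplicit false

/-! Module CFL: conflicts. -/

namespace Pool.Agent.Helper96.SE

open Pool.Agent.Helper31.BC (inn col)
open Pool.Agent.Helper38.MR (trv)

theorem st_CFL : ST_CFL := by
  intro k q l i hi
  unfold tl at hi
  simp only [Bool.and_eq_true, decide_eq_true_eq] at hi
  obtain ⟨⟨⟨h1, h2⟩, h3⟩, h4⟩ := hi
  obtain ⟨e, he⟩ : ∃ e, e = (i - (k * q + k * q * l)) / 2 := ⟨_, rfl⟩
  rw [← he] at h3
  have hv : e % (k * q) < k * q := Nat.mod_lt _ h4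
  refine ⟨⟨e / (k * q), by omega⟩, ⟨e % (k * q), hv⟩, h3, ?_⟩
  intro σ χ ha hb
  have hm : k * q ≤ k * q + k * q * l := by omega
  have g1 : ¬ i < k * q := by omega
  have g2 : ¬ i < k * q + k * q * l := by omega
  have g3 : ¬ i + 1 < k * q := by omega
  have g4 : ¬ i + 1 < k * q + k * q * l := by omega
  have g5 : ¬ (i + 1 - (k * q + k * q * l)) % 2 = 0 := by omega
  have g6 : (i + 1 - (k * q + k * q * l)) / 2 = e := by omega
  unfold asg at ha hb
  rw [if_neg g1, if_neg g2, if_pos h2, decide_eq_true_iff, ← he] at ha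
  rw [if_neg g3, if_neg g4, if_neg g5, g6, Bool.and_eq_true] at hb
  obtain ⟨b1, b2⟩ := hb
  have hu : e / (k * q) < k * q := by omega
  unfold inn at b1 b2
  rw [dif_pos hu, decide_eq_true_iff] at b1
  rw [dif_pos hv, decide_eq_true_iff] at b2
  refine ⟨b1, b2, ?_⟩
  unfold col at ha
  rw [dif_pos hu, dif_pos hv] at ha
  exact Fin.ext ha

end Pool.Agent.Helper96.SE
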