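import Pool.Agent.Helper31.BC.Defs

set_option autoImplicit false

/-! Cutting planes and branch-and-cut from subtour elimination inequalities: the definitions of the
final statement. -/

namespace Pool.Agent.Helper96.SE

open Pool.Agent.Helper31.BC (dst tourLen Placement Pair Ineq Refutes)

/-- The subtour elimination inequality of the set `S` of cities: the sum of `x e` over the edges
between `S` and its complement is at least `2`. -/
def subtour {n : ℕ} (S : Finset (Fin n)) : Ineq n :=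
  ⟨fun e => if (e.1.1 ∈ S ↔ e.1.2 ∈ S) then 0 else 1, 2⟩

/-- All subtour elimination inequalities. -/
def Subtours (n : ℕ) : Set (Ineq n) :=
  {l | ∃ S : Finset (Fin n), S.Nonempty ∧ S ≠ Finset.univ ∧ l = subtour S}

/-- The 2-factors (edge sets in which every city has degree 2) of length at most `B`, as vectors
with coordinates `0`, `1`. -/
structure TwoFactor {n : ℕ} (P : Fin n → ℤ × ℤ) (B : ℝ) (x : Pair n → ℤ) : Prop where
  bin : ∀ e, x e = 0 ∨ x e = 1
  deg : ∀ v : Fin n, ∑ e : Pair n, (if e.1.1 = v ∨ e.1.2 = v then x e else 0) = 2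
  len : ∑ e : Pair n, dst (P e.1.1) (P e.1.2) * x e ≤ B

/-- The final theorem. -/
def specFinal : Prop := ∃ k n₀ : ℕ, ∀ n : ℕ, n₀ ≤ n → ∃ (P : Fin n → ℤ × ℤ) (B : ℕ), 0 < B ∧
  Placement (n ^ k) P ∧ (∀ σ, (1 + 1 / (n : ℝ) ^ k) * B ≤ tourLen P σ) ∧
  (∃ t, Refutes (TwoFactor P B) (Subtours n) t) ∧
  ∀ t, Refutes (TwoFactor P B) (Subtours n) t → Real.exp ((n : ℝ) ^ (1 / 15 : ℝ)) ≤ t

end Pool.Agent.Helper96.SE
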