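import Pool.Agent.Helper31.BC.Stmts
import Pool.Agent.Helper96.SE.Defs

set_option autoImplicit false

/-! # The lattice graph with tiles

The graph of a formula (`Pool.Agent.Helper52.Grid`: `hC s M`, `vC s M`) with 16 additional columns
between the subcolumns and the right end.  `T i = true` means that there is a tile in the rows `i`
and `i + 1` (the upper row `i` has kind `U`, the lower row `i + 1` has kind `L`, all other rows have
kind `N`).  The additional columns `x = 5 + 4 * s.length + x'`: `x' = 0, .., 3` a block in the rows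
`U` and `L`; `x' = 4, .., 11` the tile; `x' = 12, .., 15` a block in the rows `L`;
`x' = 16, 17, 18` the right end.  In the rows `N` there are only the three strands. -/

namespace Pool.Agent.Helper96.SE

open Pool.Agent.Helper52.Grid

/-- kinds of rows -/
inductive RK | N | U | L
  deriving DecidableEq

/-- the kind of the row `i` -/
def rk (T : ℕ → Bool) (i : ℕ) : RK :=
  if T i = true then .U else if i ≠ 0 ∧ T (i - 1) = true then .L else .N

/-- horizontal costs of the tile, upper row, `x < 8` -/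
def hTU : ℕ → ℕ → ℕ
  | 1, 2 => 0
  | 1, 3 => 0
  | 1, 4 => 0
  | 1, 5 => 0
  | 1, 6 => 0
  | 1, 7 => 0
  | 2, 0 => 0
  | 2, 1 => 2
  | 3, 0 => 0
  | 3, 2 => 0
  | 3, 3 => 0
  | 3, 4 => 0
  | 3, 5 => 0
  | 3, 6 => 0
  | 3, 7 => 0
  | 4, 0 => 0
  | 4, 2 => 0
  | 4, 3 => 0
  | 4, 4 => 0
  | 4, 5 => 0
  | 5, 1 => 0
  | 5, 2 => 2
  | 5, 3 => 0
  | 5, 4 => 0
  | 5, 6 => 0
  | 5, 7 => 0
  | _, _ => 4

/-- vertical costs of the tile, upper row -/
def vTU : ℕ → ℕ → ℕ
  | 1, 0 => 0
  | 1, 2 => 0
  | 2, 1 => 2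
  | 2, 2 => 2
  | 3, 1 => 2
  | 3, 2 => 2
  | 4, 0 => 0
  | 4, 1 => 2
  | 4, 2 => 2
  | 4, 6 => 0
  | 5, 1 => 2
  | 5, 3 => 2
  | 5, 5 => 0
  | _, _ => 4

/-- horizontal costs of the tile, lower row -/
def hTL : ℕ → ℕ → ℕ
  | 0, 0 => 0
  | 0, 3 => 0
  | 1, 1 => 0
  | 1, 2 => 0
  | 1, 5 => 0
  | 1, 6 => 0
  | 1, 7 => 0
  | 2, 0 => 0
  | 2, 1 => 2
  | 2, 2 => 2
  | 3, 1 => 0
  | 3, 4 => 0
  | 3, 5 => 0
  | 3, 6 => 0
  | 3, 7 => 0
  | 5, 0 => 0
  | 5, 3 => 0
  | 5, 4 => 0
  | 5, 5 => 0
  | 5, 6 => 0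
  | 5, 7 => 0
  | _, _ => 4

/-- vertical costs of the tile, lower row -/
def vTL : ℕ → ℕ → ℕ
  | 0, 0 => 0
  | 0, 1 => 2
  | 0, 3 => 2
  | 0, 4 => 0
  | 0, 5 => 0
  | 1, 1 => 2
  | 1, 3 => 2
  | 1, 4 => 0
  | 2, 0 => 0
  | 2, 2 => 0
  | 2, 3 => 0
  | 2, 4 => 0
  | 3, 1 => 0
  | 3, 3 => 0
  | 4, 1 => 0
  | 4, 3 => 0
  | _, _ => 4

/-- horizontal costs in the additional columns and at the right end (`x` counted from the end of
the subcolumns), row of kind `ρ`, line `r` -/
def hE (ρ : RK) (r x : ℕ) : ℕ :=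
  if x < 4 then hCell (match ρ with | .N => Kind.plain | _ => Kind.blk) r x
  else if x < 12 then (match ρ with
    | .N => hCell .plain r 0
    | .U => hTU r (x - 4)
    | .L => hTL r (x - 4))
  else if x < 16 then hCell (match ρ with | .L => Kind.blk | _ => Kind.plain) r (x - 12)
  else hR r (x - 16)

/-- vertical costs in the additional columns and at the right end -/
def vE (ρ : RK) (i r x : ℕ) : ℕ :=
  if x < 4 then vCell (match ρ with | .N => Kind.plain | _ => Kind.blk) r x
  else if x < 12 then (match ρ with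
    | .N => 4
    | .U => vTU r (x - 4)
    | .L => vTL r (x - 4))
  else if x < 16 then vCell (match ρ with | .L => Kind.blk | _ => Kind.plain) r (x - 12)
  else vR i r (x - 16)

/-- cost of the edge from `(x, y)` to `(x + 1, y)` -/
def hN (s : List Sub) (M : ℕ) (T : ℕ → Bool) (x y : ℕ) : ℕ :=
  if x < 5 + 4 * s.length then hC s M x y
  else if y < 4 then (if y = 3 ∧ x < 23 + 4 * s.length then 0 else 4)
  else if (y - 4) / 6 < 2 * M + 1 then
    hE (rk T ((y - 4) / 6)) ((y - 4) % 6) (x - (5 + 4 * s.length))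
  else 4

/-- cost of the edge from `(x, y)` to `(x, y + 1)` -/
def vN (s : List Sub) (M : ℕ) (T : ℕ → Bool) (x y : ℕ) : ℕ :=
  if x < 5 + 4 * s.length then vC s M x y
  else if y < 4 then (if y = 3 ∧ x = 23 + 4 * s.length then 0 else 4)
  else if (y - 4) / 6 < 2 * M + 1 then
    vE (rk T ((y - 4) / 6)) ((y - 4) / 6) ((y - 4) % 6) (x - (5 + 4 * s.length))
  else 4

/-- used optional horizontal edges in the additional columns and at the right end; `f`: state of
the row at the end of the subcolumns, `g`: state of the row above it -/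
def hOE (ρ : RK) (f g : Bool) (r x : ℕ) : Bool :=
  if x < 4 then (if r = 1 then f else !f)
  else if x < 12 then (match ρ with
    | .N => false
    | .U => !f
    | .L => if x = 5 then g else !g)
  else if x < 16 then (if r = 1 then !f else f)
  else !f

/-- used optional vertical edges in the additional columns and at the right end -/
def vOE (ρ : RK) (f g : Bool) (r x : ℕ) : Bool :=
  if x < 4 then (if r = 1 then !f else f)
  else if x < 12 then (match ρ with
    | .N => false
    | .U => if r = 3 ∨ (r = 5 ∧ x = 5) then !f else f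
    | .L => if (r = 0 ∧ x = 5) ∨ (r = 1 ∧ x = 7) then g else !g)
  else if x < 16 then (if r = 1 then f else !f)
  else f

/-- the used horizontal edges of the 2-factor of an assignment -/
def hNU (s : List Sub) (M : ℕ) (T : ℕ → Bool) (a ch : ℕ → Bool) (x y : ℕ) : Bool :=
  if x < 5 + 4 * s.length then hUse s M a ch x y
  else if hN s M T x y = 0 then true
  else if hN s M T x y = 2 then
    hOE (rk T ((y - 4) / 6)) (bst s a ((y - 4) / 6) s.length) (bst s a ((y - 4) / 6 - 1) s.length)
      ((y - 4) % 6) (x - (5 + 4 * s.length))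
  else false

/-- the used vertical edges of the 2-factor of an assignment -/
def vNU (s : List Sub) (M : ℕ) (T : ℕ → Bool) (a ch : ℕ → Bool) (x y : ℕ) : Bool :=
  if x < 5 + 4 * s.length then vUse s M a ch x y
  else if vN s M T x y = 0 then true
  else if vN s M T x y = 2 then
    vOE (rk T ((y - 4) / 6)) (bst s a ((y - 4) / 6) s.length) (bst s a ((y - 4) / 6 - 1) s.length)
      ((y - 4) % 6) (x - (5 + 4 * s.length))
  else false

/-- possible sets of tiles -/
structure VT (M : ℕ) (T : ℕ → Bool) : Prop where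
  sep : ∀ i, T i = true → T (i + 1) = false
  lt : ∀ i, T i = true → i + 1 < 2 * M + 1

/-- the row `i` has a block in the subcolumn `k` -/
def IsBlk (s : List Sub) (T : ℕ → Bool) (i k : ℕ) : Prop :=
  (∃ d, sg s k = some (i, d)) ∨ (k = s.length ∧ rk T i ≠ .N)

/-! ## Evaluation -/

section
variable {s : List Sub} {M : ℕ} {T : ℕ → Bool} {a ch : ℕ → Bool}

theorem hN_old {x y : ℕ} (hx : x < 5 + 4 * s.length) : hN s M T x y = hC s M x y := if_pos hx

theorem vN_old {x y : ℕ} (hx : x < 5 + 4 * s.length) : vN s M T x y = vC s M x y := if_pos hx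

theorem hNU_old {x y : ℕ} (hx : x < 5 + 4 * s.length) :
    hNU s M T a ch x y = hUse s M a ch x y := if_pos hx

theorem vNU_old {x y : ℕ} (hx : x < 5 + 4 * s.length) :
    vNU s M T a ch x y = vUse s M a ch x y := if_pos hx

theorem hN_row {i r x x' y : ℕ} (hi : i < 2 * M + 1) (hr : r < 6)
    (hx : x' = 5 + 4 * s.length + x) (hy : y = 4 + 6 * i + r) :
    hN s M T x' y = hE (rk T i) r x := by
  unfold hN
  have h1 : ¬ x' < 5 + 4 * s.length := by omega
  have h2 : ¬ y < 4 := by omega
  have h3 : (y - 4) / 6 = i := by omega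
  have h4 : (y - 4) % 6 = r := by omega
  have h5 : x' - (5 + 4 * s.length) = x := by omega
  rw [if_neg h1, if_neg h2, h3, if_pos hi, h4, h5]

theorem vN_row {i r x x' y : ℕ} (hi : i < 2 * M + 1) (hr : r < 6)
    (hx : x' = 5 + 4 * s.length + x) (hy : y = 4 + 6 * i + r) :
    vN s M T x' y = vE (rk T i) i r x := by
  unfold vN
  have h1 : ¬ x' < 5 + 4 * s.length := by omega
  have h2 : ¬ y < 4 := by omega
  have h3 : (y - 4) / 6 = i := by omega
  have h4 : (y - 4) % 6 = r := by omega
  have h5 : x' - (5 + 4 * s.length) = x := by omega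
  rw [if_neg h1, if_neg h2, h3, if_pos hi, h4, h5]

theorem hN_top {x y : ℕ} (hx : 5 + 4 * s.length ≤ x) (hy : y < 4) :
    hN s M T x y = if y = 3 ∧ x < 23 + 4 * s.length then 0 else 4 := by
  unfold hN
  rw [if_neg (by omega), if_pos hy]

theorem vN_top {x y : ℕ} (hx : 5 + 4 * s.length ≤ x) (hy : y < 4) :
    vN s M T x y = if y = 3 ∧ x = 23 + 4 * s.length then 0 else 4 := by
  unfold vN
  rw [if_neg (by omega), if_pos hy]

theorem hN_bot {x y : ℕ} (hy : 4 + 6 * (2 * M + 1) ≤ y) : hN s M T x y = 4 := by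
  have h1 : ¬ y < 4 := by omega
  have h2 : ¬ (y - 4) / 6 < 2 * M + 1 := by omega
  unfold hN hC
  rw [if_neg h1, if_neg h2, if_neg h1, if_neg h2, ite_self]

theorem vN_bot {x y : ℕ} (hy : 4 + 6 * (2 * M + 1) ≤ y) : vN s M T x y = 4 := by
  have h1 : ¬ y < 4 := by omega
  have h2 : ¬ (y - 4) / 6 < 2 * M + 1 := by omega
  unfold vN vC
  rw [if_neg h1, if_neg h2, if_neg h1, if_neg h2, ite_self]

theorem hNU_row {i r x x' y : ℕ} (hi : i < 2 * M + 1) (hr : r < 6)
    (hx : x' = 5 + 4 * s.length + x) (hy : y = 4 + 6 * i + r) :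
    hNU s M T a ch x' y = if hE (rk T i) r x = 0 then true else if hE (rk T i) r x = 2 then
      hOE (rk T i) (bst s a i s.length) (bst s a (i - 1) s.length) r x else false := by
  unfold hNU
  have h1 : ¬ x' < 5 + 4 * s.length := by omega
  have h3 : (y - 4) / 6 = i := by omega
  have h4 : (y - 4) % 6 = r := by omega
  have h5 : x' - (5 + 4 * s.length) = x := by omega
  rw [if_neg h1, hN_row hi hr hx hy, h3, h4, h5]

theorem vNU_row {i r x x' y : ℕ} (hi : i < 2 * M + 1) (hr : r < 6)
    (hx : x' = 5 + 4 * s.length + x) (hy : y = 4 + 6 * i + r) :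
    vNU s M T a ch x' y = if vE (rk T i) i r x = 0 then true else if vE (rk T i) i r x = 2 then
      vOE (rk T i) (bst s a i s.length) (bst s a (i - 1) s.length) r x else false := by
  unfold vNU
  have h1 : ¬ x' < 5 + 4 * s.length := by omega
  have h3 : (y - 4) / 6 = i := by omega
  have h4 : (y - 4) % 6 = r := by omega
  have h5 : x' - (5 + 4 * s.length) = x := by omega
  rw [if_neg h1, vN_row hi hr hx hy, h3, h4, h5]

end

end Pool.Agent.Helper96.SE
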