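import Pool.Agent.Helper96.SE.Lat

set_option autoImplicit false

/-! # Statements of the modules (se_mods) -/

namespace Pool.Agent.Helper96.SE

open Pool.Agent.Helper31.BC (dst tourLen Placement Pair Ineq Refutes PCl chs chf xv inn sel col vr)
open Pool.Agent.Helper38.MR (Edge Graph clq mpt Gate Simple out trv)
open Pool.Agent.Helper52.Grid
open Pool.Agent.Helper68.LP (pert dbl ucost scale Costs padded sc)

/-! ## Part I: interpolation -/

/-- the data for the interpolation: vectors `f α + g β` in `K` which violate the subtour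
elimination inequality of a set only if the graphs differ in a certain edge -/
structure Spl {n m : ℕ} {A B : Type} (K : (Pair n → ℤ) → Prop) (gA : A → Graph m)
    (gB : B → Graph m) (f : A → Pair n → ℤ) (g : B → Pair n → ℤ) : Prop where
  mem : ∀ α β, K (fun e => f α e + g β e)
  leaf : ∀ S : Finset (Fin n), S.Nonempty → S ≠ Finset.univ → ∃ ε : Edge m, ∀ α β,
    ¬ (subtour S).Holds (fun e => f α e + g β e) → gA α ε = true ∧ gB β ε = false

/-- (LB) the lower bound (from CIRC, EV, COR of helper31) -/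
def ST_LB : Prop := ∀ (s : ℕ), 3 ≤ s → ∀ (n : ℕ) (K : (Pair n → ℤ) → Prop)
  (f : (Fin (4 * s ^ 2 + 1) → Fin (8 * s)) → Pair n → ℤ)
  (g : (Fin ((4 * s ^ 2 + 1) * (8 * s)) → Fin (4 * s ^ 2)) → Pair n → ℤ),
  Spl K (fun σ => clq (trv σ)) (fun χ => mpt χ) f g →
  ∀ t, Refutes K (Subtours n) t →
    2 ^ s ≤ 12 * t * ((4 * s ^ 2 + 1) * (8 * s) + 1) ^ Nat.log 2 t + 2

/-! ## Part II: the lattice graph, no tours -/

/-- (CYC) a cycle of used edges contains all vertices -/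
def ST_CYC : Prop := ∀ (h v : ℕ → ℕ → ℕ) (hU vU : ℕ → ℕ → Bool) (L : List Pt), Use h v hU vU →
  3 ≤ L.length → L.Nodup → (∀ p ∈ L, 1 ≤ p.1 ∧ 1 ≤ p.2 ∧ Vert h v p) →
  (∀ (i : ℕ) (hi : i < L.length),
    (fun p q : Pt =>
      (q = (p.1 + 1, p.2) ∧ hU p.1 p.2 = true) ∨ (p = (q.1 + 1, q.2) ∧ hU q.1 q.2 = true) ∨
      (q = (p.1, p.2 + 1) ∧ vU p.1 p.2 = true) ∨ (p = (q.1, q.2 + 1) ∧ vU q.1 q.2 = true))
    L[i] (L[(i + 1) % L.length]'(Nat.mod_lt _ (by omega)))) →
  ∀ b, Vert h v b → b ∈ L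

/-- (XOR) two consecutive blocks of a row are in different states -/
def ST_XOR : Prop := ∀ (s : List Sub) (M : ℕ) (T : ℕ → Bool) (hU vU : ℕ → ℕ → Bool),
  (∀ k i d, sg s k = some (i, d) → i < 2 * M + 1) → VT M T → Use (hN s M T) (vN s M T) hU vU →
  ∀ i k k', i < 2 * M + 1 → k < k' → IsBlk s T i k → IsBlk s T i k' →
    (∀ k'', k < k'' → k'' < k' → ¬ IsBlk s T i k'') → sigma vU i k ≠ sigma vU i k'

/-- (CLS) each clause contains a docked subcolumn whose block is in state `true` -/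
def ST_CLS : Prop := ∀ (s : List Sub) (M : ℕ) (T : ℕ → Bool) (hU vU : ℕ → ℕ → Bool),
  (∀ k i d, sg s k = some (i, d) → i < 2 * M + 1) → Use (hN s M T) (vN s M T) hU vU →
  ∀ k n, sg s k = none → k < s.length → (∀ l, k < l → l ≤ k + n → sg s l ≠ none) →
    sg s (k + n + 1) = none →
    ∃ l i, k < l ∧ l ≤ k + n ∧ sg s l = some (i, true) ∧ sigma vU i l = true

/-- (NAN) a tile forbids that both rows are in the state `true` (from CYC) -/
def ST_NAN : Prop := ∀ (s : List Sub) (M : ℕ) (T : ℕ → Bool) (hU vU : ℕ → ℕ → Bool),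
  VT M T → Use (hN s M T) (vN s M T) hU vU → ∀ i, T i = true →
    ¬ (sigma vU i s.length = true ∧ sigma vU (i + 1) s.length = true)

/-- (SND) tours give satisfying assignments (from XOR, CLS, NAN, BOX) -/
def ST_SND : Prop := ∀ (φ : CNF) (M : ℕ) (T : ℕ → Bool), (∀ c ∈ φ, ∀ l ∈ c, l.1 < 2 * M + 1) →
  VT M T → (∃ L, Tour (hN (subs φ) M T) (vN (subs φ) M T) L) →
  ∃ a, φ.Sat a ∧ ∀ i, T i = true → ¬ (a i = true ∧ a (i + 1) = true)

/-! ## Part III: the lattice graph, 2-factors -/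

/-- (BOX) -/
def ST_BOX : Prop := ∀ (s : List Sub) (M : ℕ) (T : ℕ → Bool),
  Box (hN s M T) (vN s M T) (4 * s.length + 12 * M + 34)

/-- (CST) costs are 0, 2, 4 -/
def ST_CST : Prop := ∀ (s : List Sub) (M : ℕ) (T : ℕ → Bool), Costs (hN s M T) (vN s M T)

/-- (FDG) at most two forced edges at each vertex -/
def ST_FDG : Prop := ∀ (s : List Sub) (M : ℕ) (T : ℕ → Bool),
  (∀ k i d, sg s k = some (i, d) → i < 2 * M + 1) → (0 < s.length → sg s 0 = none) → VT M T →
  ∀ x y, Pool.Agent.Helper68.LP.fdeg (hN s M T) (vN s M T) (x + 1, y + 1) ≤ 2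

/-- (SIZ) the number of vertices -/
def ST_SIZ : Prop := ∀ (s : List Sub) (M : ℕ) (T : ℕ → Bool) (L : List Pt), L.Nodup →
  (∀ a, a ∈ L ↔ Vert (hN s M T) (vN s M T) a) →
  L.length ≤ (24 + 4 * s.length) * (10 + 12 * M) ∧ 4 * s.length + 12 * M + 34 ≤ 2 * L.length

/-- sets of used edges of 2-factors -/
structure BV (h v : ℕ → ℕ → ℕ) (hU vU : ℕ → ℕ → Bool) : Prop where
  h0 : ∀ x y, h x y = 0 → hU x y = true
  h4 : ∀ x y, h x y ≠ 0 → h x y ≠ 2 → hU x y = false
  v0 : ∀ x y, v x y = 0 → vU x y = true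
  v4 : ∀ x y, v x y ≠ 0 → v x y ≠ 2 → vU x y = false
  hV : ∀ x y, hU x y = true → Vert h v (x, y) ∧ Vert h v (x + 1, y)
  vV : ∀ x y, vU x y = true → Vert h v (x, y) ∧ Vert h v (x, y + 1)
  deg : ∀ x y, Vert h v (x + 1, y + 1) →
    (hU (x + 1) (y + 1)).toNat + (hU x (y + 1)).toNat + (vU (x + 1) (y + 1)).toNat +
      (vU (x + 1) y).toNat = 2

/-- (DEG) the edges of an assignment form a 2-factor -/
def ST_DEG : Prop := ∀ (s : List Sub) (M : ℕ) (T a ch : ℕ → Bool),
  (∀ k i d, sg s k = some (i, d) → i < 2 * M + 1) → (0 < s.length → sg s 0 = none) → VT M T →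
  Choice s a ch → BV (hN s M T) (vN s M T) (hNU s M T a ch) (vNU s M T a ch)

/-- closed under the used edges -/
def Cls (hU vU : ℕ → ℕ → Bool) (S : Pt → Prop) : Prop :=
  (∀ x y, hU x y = true → (S (x, y) ↔ S (x + 1, y))) ∧
    ∀ x y, vU x y = true → (S (x, y) ↔ S (x, y + 1))

/-- (CN1) the strands at the end of the subcolumns: two of them are joined on the right, the third
one is joined to the exit of the row -/
def ST_CN1 : Prop := ∀ (s : List Sub) (M : ℕ) (T a ch : ℕ → Bool), VT M T →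
  ∀ S : Pt → Prop, Cls (hNU s M T a ch) (vNU s M T a ch) S → ∀ i, i < 2 * M + 1 →
    (bst s a i s.length = true →
      (S (5 + 4 * s.length, 7 + 6 * i) ↔ S (5 + 4 * s.length, 9 + 6 * i)) ∧
      (S (5 + 4 * s.length, 5 + 6 * i) ↔ S (23 + 4 * s.length, 8 + 6 * i))) ∧
    (bst s a i s.length = false →
      (S (5 + 4 * s.length, 5 + 6 * i) ↔ S (5 + 4 * s.length, 7 + 6 * i)) ∧
      (S (5 + 4 * s.length, 9 + 6 * i) ↔ S (23 + 4 * s.length, 8 + 6 * i)))

/-- the tile in the rows `i`, `i + 1` is in conflict, and `b` lies in these rows -/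
def Conf (s : List Sub) (T a : ℕ → Bool) (b : Pt) : Prop := ∃ i, T i = true ∧
  bst s a i s.length = true ∧ bst s a (i + 1) s.length = true ∧ 4 + 6 * i ≤ b.2 ∧ b.2 < 16 + 6 * i

/-- (CN2) all vertices in the additional columns and at the right end are joined to a strand or to
the exit of the row, except in case of a conflict -/
def ST_CN2 : Prop := ∀ (s : List Sub) (M : ℕ) (T a ch : ℕ → Bool), VT M T →
  ∀ S : Pt → Prop, Cls (hNU s M T a ch) (vNU s M T a ch) S →
    (∀ i, i < 2 * M + 1 → (S (5 + 4 * s.length, 5 + 6 * i) ↔ S (1, 3)) ∧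
      (S (5 + 4 * s.length, 7 + 6 * i) ↔ S (1, 3)) ∧
      (S (5 + 4 * s.length, 9 + 6 * i) ↔ S (1, 3)) ∧
      (S (23 + 4 * s.length, 8 + 6 * i) ↔ S (1, 3))) →
    ∀ b, Vert (hN s M T) (vN s M T) b → 5 + 4 * s.length ≤ b.1 → 4 ≤ b.2 →
      (S b ↔ S (1, 3)) ∨ Conf s T a b

/-- (CNN) connectedness up to conflicts (from CN1, CN2 and `S_Conn` of the old grid) -/
def ST_CNN : Prop := ∀ (s : List Sub) (M : ℕ) (T a ch : ℕ → Bool),
  (∀ k i d, sg s k = some (i, d) → i < 2 * M + 1) → (0 < s.length → sg s 0 = none) → VT M T →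
  Choice s a ch → ∀ S : Pt → Prop, Cls (hNU s M T a ch) (vNU s M T a ch) S →
    ∀ b, Vert (hN s M T) (vN s M T) b → (S b ↔ S (1, 3)) ∨ Conf s T a b

/-- (PTY) each edge is controlled by one party; `pr i`: the party of the row `i`, `pc k`: the party
of the subcolumn `k` -/
def ST_PTY : Prop := ∀ (s : List Sub) (M : ℕ) (T pr pc : ℕ → Bool),
  (∀ k i d, sg s k = some (i, d) → pr i = pc k) → ∀ x y,
  (∃ b : Bool, ∀ a ch a' ch' : ℕ → Bool, (∀ i, pr i = b → a i = a' i) →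
    (∀ k, pc k = b → ch k = ch' k) → hNU s M T a ch x y = hNU s M T a' ch' x y) ∧
  ∃ b : Bool, ∀ a ch a' ch' : ℕ → Bool, (∀ i, pr i = b → a i = a' i) →
    (∀ k, pc k = b → ch k = ch' k) → vNU s M T a ch x y = vNU s M T a' ch' x y

/-! ## Part IV: the clique-colouring formula -/

/-- number of the variable: the vertices `u < v` have the same colour (upper row of a tile) -/
def wr (m l u v : ℕ) : ℕ := m + m * l + 2 * (u * m + v)

/-- number of the variable: both vertices `u < v` are chosen (lower row of a tile) -/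
def xr (m l u v : ℕ) : ℕ := m + m * l + 2 * (u * m + v) + 1

/-- Alice's clauses with chosen literals: a vertex is chosen in each of the `k` blocks of size `q`,
and `xr u v` is true if `u` and `v` are chosen -/
def pA (k q l : ℕ) (In : ℕ → Bool) (se : ℕ → ℕ) : PCl :=
  (List.range k).map (fun i => ((List.range q).map fun j => (j + q * i, true), se i)) ++
  (List.range (k * q)).flatMap fun u => (List.range (k * q)).flatMap fun v =>
    if u < v then
      [([(u, false), (v, false), (xr (k * q) l u v, true)],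
        if In u = false then 0 else if In v = false then 1 else 2)]
    else []

/-- Bob's clauses with chosen literals: each of the `m` vertices has one of the `l` colours, and
`wr u v` is true for vertices of the same colour -/
def pB (m l : ℕ) (co : ℕ → ℕ) : PCl :=
  (List.range m).map (fun v => ((List.range l).map fun c => (vr m l v c, true), co v)) ++
  (List.range m).flatMap fun u => (List.range m).flatMap fun v => (List.range l).flatMap fun c =>
    if u < v then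
      [([(vr m l u c, false), (vr m l v c, false), (wr m l u v, true)],
        if co u ≠ c then 0 else if co v ≠ c then 1 else 2)]
    else []

/-- the formula -/
def ccF (k q l : ℕ) : CNF :=
  (pA k q l (fun _ => false) (fun _ => 0)).map Prod.fst ++
    (pB (k * q) l (fun _ => 0)).map Prod.fst

/-- the tiles -/
def tl (m l i : ℕ) : Bool :=
  decide (m + m * l ≤ i) && decide ((i - (m + m * l)) % 2 = 0) &&
    decide ((i - (m + m * l)) / 2 / m < (i - (m + m * l)) / 2 % m) && decide (0 < m)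

/-- number of rows: `2 * ccM + 1` -/
def ccM (k q l : ℕ) : ℕ := k * q + k * q * l + (k * q) * (k * q)

/-- the assignment of `σ` and `χ` -/
def asg {k q l : ℕ} (σ : Fin k → Fin q) (χ : Fin (k * q) → Fin l) (i : ℕ) : Bool :=
  if i < k * q then inn σ i
  else if i < k * q + k * q * l then
    decide (col χ ((i - k * q) / l) = (i - k * q) % l)
  else if (i - (k * q + k * q * l)) % 2 = 0 then
    decide (col χ ((i - (k * q + k * q * l)) / 2 / (k * q)) =
      col χ ((i - (k * q + k * q * l)) / 2 % (k * q)))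
  else inn σ ((i - (k * q + k * q * l)) / 2 / (k * q)) &&
    inn σ ((i - (k * q + k * q * l)) / 2 % (k * q))

/-- the chosen literals of `σ` and `χ` -/
def pcc {k q l : ℕ} (σ : Fin k → Fin q) (χ : Fin (k * q) → Fin l) : PCl :=
  pA k q l (inn σ) (sel σ) ++ pB (k * q) l (col χ)

/-- the party of a row (`true`: Alice) -/
def prw (m l i : ℕ) : Bool :=
  decide (i < m) || (decide (m + m * l ≤ i) && decide ((i - (m + m * l)) % 2 = 1))

/-- the party of a subcolumn -/
def pco (k q l j : ℕ) : Bool :=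
  decide (j < (chs (pA k q l (fun _ => false) (fun _ => 0))).length)

/-- (FRM) the formula does not depend on the choices, chosen literals exist, the variables are in
the right range -/
def ST_FRM : Prop := ∀ (k q l : ℕ) (σ : Fin k → Fin q) (χ : Fin (k * q) → Fin l),
  (pcc σ χ).map Prod.fst = ccF k q l ∧ (∀ x ∈ pcc σ χ, x.2 < x.1.length) ∧
  (∀ c ∈ ccF k q l, ∀ y ∈ c, y.1 < 2 * ccM k q l + 1) ∧ VT (ccM k q l) (tl (k * q) l)

/-- (FRP) the parties -/
def ST_FRP : Prop := ∀ (k q l : ℕ) (σ σ' : Fin k → Fin q) (χ χ' : Fin (k * q) → Fin l),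
  (∀ i, prw (k * q) l i = true → asg σ χ i = asg σ χ' i) ∧
  (∀ i, prw (k * q) l i = false → asg σ χ i = asg σ' χ i) ∧
  (∀ j, pco k q l j = true → chf (pcc σ χ) j = chf (pcc σ χ') j) ∧
  (∀ j, pco k q l j = false → chf (pcc σ χ) j = chf (pcc σ' χ) j) ∧
  ∀ j i d, sg (subs (ccF k q l)) j = some (i, d) → prw (k * q) l i = pco k q l j

/-- (LIT) the chosen literals are true -/
def ST_LIT : Prop := ∀ (k q l : ℕ) (σ : Fin k → Fin q) (χ : Fin (k * q) → Fin l),
  ∀ x ∈ pcc σ χ, ∀ y, x.1[x.2]? = some y → asg σ χ y.1 = y.2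

/-- (CFL) conflicts -/
def ST_CFL : Prop := ∀ (k q l : ℕ) (i : ℕ), tl (k * q) l i = true →
  ∃ u v : Fin (k * q), u < v ∧ ∀ (σ : Fin k → Fin q) (χ : Fin (k * q) → Fin l),
    asg σ χ i = true → asg σ χ (i + 1) = true → u ∈ trv σ ∧ v ∈ trv σ ∧ χ u = χ v

/-- (UNS) the formula is not satisfiable together with the tiles -/
def ST_UNS : Prop := ∀ k q l : ℕ, l < k → ¬ ∃ a : ℕ → Bool, (ccF k q l).Sat a ∧
  ∀ i, tl (k * q) l i = true → ¬ (a i = true ∧ a (i + 1) = true)

/-- (SZF) the size of the formula -/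
def ST_SZF : Prop := ∀ (k q l : ℕ), 1 ≤ k → 1 ≤ q → 1 ≤ l →
  (subs (ccF k q l)).length ≤ 20 * (k * q) ^ 2 * l ∧ k ≤ (subs (ccF k q l)).length

/-- (SBS) in the grid of the formula the states at the end of the subcolumns are the values of the
variables -/
def ST_SBS : Prop := ∀ (φ : CNF) (a : ℕ → Bool) (i : ℕ),
  bst (subs φ) a i (subs φ).length = a i

/-! ## Part V: from the lattice to the plane -/

/-- the vector of a set of used edges -/
def xb {n : ℕ} (hU vU : ℕ → ℕ → Bool) (p : Fin n → Pt) : Pair n → ℤ :=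
  xv (fun x y => ((hU x y).toNat : ℤ)) (fun x y => ((vU x y).toNat : ℤ)) p

/-- (REL) 2-factors of the lattice graph are short 2-factors of the cities -/
def ST_REL : Prop := ∀ (n N W : ℕ) (h v : ℕ → ℕ → ℕ) (hU vU : ℕ → ℕ → Bool) (p : Fin n → Pt),
  Box h v N → Costs h v → BV h v hU vU → 2 ≤ n → Function.Injective p →
  (∀ a, Vert h v a ↔ ∃ i, p i = a) →
  W + ∑ i, Pool.Agent.Helper68.LP.fdeg h v (p i) = 2 * n →
  TwoFactor (fun i => pert (dbl h) (dbl v) (scale n (2 * N) 4 W : ℕ) (p i))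
    ((n * scale n (2 * N) 4 W + (2 * W + 1) : ℕ) : ℝ) (xb hU vU p)

/-- (CUT) sets of cities which violate their subtour elimination inequality are closed -/
def ST_CUT : Prop := ∀ (n N : ℕ) (h v : ℕ → ℕ → ℕ) (hU vU : ℕ → ℕ → Bool) (p : Fin n → Pt),
  Box h v N → BV h v hU vU → Function.Injective p → (∀ a, Vert h v a ↔ ∃ i, p i = a) →
  ∀ S : Finset (Fin n), ¬ (subtour S).Holds (xb hU vU p) →
    Cls hU vU (fun a => ∃ i ∈ S, p i = a)

/-- (SPL) the split (from DEG, CNN, PTY, REL, CUT, FRM, FRP, LIT, CFL, SBS, BOX, CST, and CHS of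
helper31) -/
def ST_SPL : Prop := ∀ (k q l N W n : ℕ) (p : Fin n → Pt), 0 < q → 0 < l → 2 ≤ k → 2 ≤ n →
  Box (hN (subs (ccF k q l)) (ccM k q l) (tl (k * q) l))
    (vN (subs (ccF k q l)) (ccM k q l) (tl (k * q) l)) N →
  Function.Injective p →
  (∀ a, Vert (hN (subs (ccF k q l)) (ccM k q l) (tl (k * q) l))
    (vN (subs (ccF k q l)) (ccM k q l) (tl (k * q) l)) a ↔ ∃ i, p i = a) →
  W + ∑ i, Pool.Agent.Helper68.LP.fdeg (hN (subs (ccF k q l)) (ccM k q l) (tl (k * q) l))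
    (vN (subs (ccF k q l)) (ccM k q l) (tl (k * q) l)) (p i) = 2 * n →
  ∃ (f : (Fin k → Fin q) → Pair n → ℤ) (g : (Fin (k * q) → Fin l) → Pair n → ℤ) (e₀ : Pair n),
    Spl (TwoFactor (fun i => pert (dbl (hN (subs (ccF k q l)) (ccM k q l) (tl (k * q) l)))
        (dbl (vN (subs (ccF k q l)) (ccM k q l) (tl (k * q) l))) (scale n (2 * N) 4 W : ℕ) (p i))
      ((n * scale n (2 * N) 4 W + (2 * W + 1) : ℕ) : ℝ))
      (fun σ => clq (trv σ)) (fun χ => mpt χ) f g ∧ ∀ σ χ, f σ e₀ + g χ e₀ = 1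

/-- (PD1) inserting a city `z` into an edge which is always used; `w` is one of its ends -/
def ST_PD1 : Prop := ∀ (n m : ℕ) (A B : Type) (P : Fin n → ℤ × ℤ) (b : ℝ) (gA : A → Graph m)
  (gB : B → Graph m) (f : A → Pair n → ℤ) (g : B → Pair n → ℤ) (e₀ : Pair n) (w : Fin n)
  (z : ℤ × ℤ), 3 ≤ n → (w = e₀.1.1 ∨ w = e₀.1.2) → Spl (TwoFactor P b) gA gB f g →
  (∀ α β, f α e₀ + g β e₀ = 1) →
  ∃ (f' : A → Pair (n + 1) → ℤ) (g' : B → Pair (n + 1) → ℤ) (e₁ : Pair (n + 1)),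
    e₁.1.1 = w.castSucc ∧ e₁.1.2 = Fin.last n ∧
    Spl (TwoFactor (Fin.snoc P z : Fin (n + 1) → ℤ × ℤ)
      (b + (dst (P e₀.1.1) z + dst z (P e₀.1.2) - dst (P e₀.1.1) (P e₀.1.2)))) gA gB f' g' ∧
    ∀ α β, f' α e₁ + g' β e₁ = 1

/-- (PAD) additional cities (from PD1) -/
def ST_PAD : Prop := ∀ (n m t L : ℕ) (A B : Type) (P : Fin n → ℤ × ℤ) (b : ℝ) (gA : A → Graph m)
  (gB : B → Graph m) (f : A → Pair n → ℤ) (g : B → Pair n → ℤ) (e₀ : Pair n), 3 ≤ n →
  Spl (TwoFactor P b) gA gB f g → (∀ α β, f α e₀ + g β e₀ = 1) →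
  ∃ (f' : A → Pair (n + t) → ℤ) (g' : B → Pair (n + t) → ℤ),
    Spl (TwoFactor (padded L t e₀.1.1 P) (L * b + 2 * t)) gA gB f' g'

/-- (GAP) the lengths of the tours if the lattice graph has no tour -/
def ST_GAP : Prop := ∀ (h v : ℕ → ℕ → ℕ) (N W : ℕ) (L : List Pt), Box h v N → Costs h v →
  L.Nodup → (∀ a, a ∈ L ↔ Vert h v a) → 3 ≤ L.length →
  W + (L.map (Pool.Agent.Helper68.LP.fdeg h v)).sum = 2 * L.length → (¬ ∃ T, Tour h v T) →
  ∀ σ, ((L.length * scale L.length (2 * N) 4 W + (2 * W + 2) : ℕ) : ℝ) ≤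
    tourLen (fun i => pert (dbl h) (dbl v) (scale L.length (2 * N) 4 W : ℕ) (L.get i)) σ

/-- (EX) proofs exist (from TR of helper31) -/
def ST_EX : Prop := ∀ (n : ℕ) (P : Fin n → ℤ × ℤ) (B : ℝ), 3 ≤ n → (∀ σ, B < tourLen P σ) →
  ∃ t, Refutes (TwoFactor P B) (Subtours n) t

/-- (NUM) the numerical part -/
def ST_NUM : Prop := ∃ s₀ : ℕ, ∀ s, s₀ ≤ s → ∀ n : ℕ, n ≤ 10 ^ 20 * s ^ 14 → ∀ t : ℕ,
  2 ^ s ≤ 12 * t * ((4 * s ^ 2 + 1) * (8 * s) + 1) ^ Nat.log 2 t + 2 →
  Real.exp ((n : ℝ) ^ (1 / 15 : ℝ)) ≤ t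

end Pool.Agent.Helper96.SE
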